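import Pool.Agent.Lib_helper46.OX.Hi

/-!
# Five colours: the end of the proof
-/

set_option autoImplicit false
set_option linter.unusedSectionVars false
set_option linter.unusedVariables false

open scoped Classical
open Finset
open Pool.Agent.O2 (PC Cb CrOn pr ms dg nd)
open Pool.Agent.O3 (con hit Clq)
open Pool.Agent.OW28 (NoCE)
open Pool.Agent.OW46 (km_aux bb)
open Pool.Agent.OW

namespace Pool.Agent.OX46

variable {V : Type} {G : SimpleGraph V} {S : Finset V}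

/-- the waste at `u` -/
noncomputable def wa (G : SimpleGraph V) (S A : Finset V) (u : V) : ℤ :=
  if 4 + dg G A u ≤ dg G S u then (dg G S u : ℤ) - 4 - dg G A u else 0

/-- the low neighbours -/
noncomputable def ln (G : SimpleGraph V) (S : Finset V) (u : V) : Finset V :=
  (lo G S 5).filter fun x => G.Adj u x

theorem mem_ln {u x : V} : x ∈ ln G S u ↔ (x ∈ S ∧ dg G S x = 5) ∧ G.Adj u x := by
  unfold ln
  rw [mem_filter, mem_lo]

/-- the inequality at a vertex which is not low -/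
theorem L5.high (h : L5 G S) {o : V → ℕ} (ho : ∀ a ∈ S, ∀ b ∈ S, o a = o b → a = b) {u : V}
    (hu : u ∈ S) (hdu : dg G S u ≠ 5) :
    ∑ x ∈ ln G S u, gC (dg G S u) (ty G S o x) ≤
      1440 * ((dg G S u : ℤ) - 6) + 180 * (wa G S (A1 G S o) u + wa G S (A2 G S o) u) := by
  have e1 := sum_ty (ln G S u) (ty G S o) (fun x _ => ty_lt o x) (gC (dg G S u))
  have e2 := sum_ty (ln G S u) (ty G S o) (fun x _ => ty_lt o x) iC
  have e3 := sum_ty (ln G S u) (ty G S o) (fun x _ => ty_lt o x) (fun _ => 1)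
  have e4 := h.nbs ho u
  rw [sum_const, nsmul_eq_mul, mul_one] at e3
  have hl : ll G S 5 u = (ln G S u).card := rfl
  have hld : (ln G S u).card ≤ dg G S u := by
    rw [← hl]
    exact Pool.Agent.O2.dg_mono (filter_subset _ _) u
  have hge := h.cr.dg_ge hu
  have f45 := h.eq45 ho hu hdu
  have f3 := h.two3 (o := o) hu hdu
  change ((ln G S u).filter fun x => ty G S o x = 4).card =
    ((ln G S u).filter fun x => ty G S o x = 5).card at f45
  change 1 ≤ ((ln G S u).filter fun x => ty G S o x = 3).card →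
    2 ≤ ((ln G S u).filter fun x => ty G S o x = 3).card at f3
  change (dg G (A1 G S o) u : ℤ) + dg G (A2 G S o) u = ∑ x ∈ ln G S u, iC (ty G S o x) at e4
  have f1 : 1 ≤ ((ln G S u).filter fun x => ty G S o x = 1).card →
      (ln G S u).card + 3 ≤ dg G S u := by
    intro h1
    obtain ⟨x, hx⟩ := card_pos.1 h1
    obtain ⟨h2, h3⟩ := mem_filter.1 hx
    obtain ⟨⟨hxS, hlx⟩, hux⟩ := mem_ln.1 h2
    rcases h.cases o (mem_lo.2 ⟨hxS, hlx⟩) with ⟨e, _⟩ | ⟨e, h4, h5, v, hv, hxv, htv⟩ | ⟨e, _⟩ |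
      ⟨e, _⟩ | ⟨e, _⟩ | ⟨e, _⟩ | ⟨e, _⟩ | ⟨e, _⟩
    all_goals first | omega | skip
    obtain ⟨hvS, hlv⟩ := mem_lo.1 hv
    rw [← hl]
    exact h.edge_nb hxS hlx h4 hvS hlv htv hxv hu hux.symm (fun e => hdu (e ▸ hlv))
  have f11 : 2 ≤ ((ln G S u).filter fun x => ty G S o x = 1).card → dg G S u = 6 →
      (ln G S u).card ≤ 2 := by
    intro h1 h6
    obtain ⟨x, hx, x', hx', hne⟩ := one_lt_card.1 h1
    obtain ⟨h2, h3⟩ := mem_filter.1 hx
    obtain ⟨⟨hxS, hlx⟩, hux⟩ := mem_ln.1 h2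
    obtain ⟨h2', h3'⟩ := mem_filter.1 hx'
    obtain ⟨⟨hxS', hlx'⟩, hux'⟩ := mem_ln.1 h2'
    rcases h.cases o (mem_lo.2 ⟨hxS, hlx⟩) with ⟨e, _⟩ | ⟨e, h4, h5, v, hv, hxv, htv⟩ | ⟨e, _⟩ |
      ⟨e, _⟩ | ⟨e, _⟩ | ⟨e, _⟩ | ⟨e, _⟩ | ⟨e, _⟩
    all_goals first | omega | skip
    rcases h.cases o (mem_lo.2 ⟨hxS', hlx'⟩) with ⟨e', _⟩ |
      ⟨e', h4', h5', v', hv', hxv', htv'⟩ | ⟨e', _⟩ |
      ⟨e', _⟩ | ⟨e', _⟩ | ⟨e', _⟩ | ⟨e', _⟩ | ⟨e', _⟩
    all_goals first | omega | skip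
    obtain ⟨hvS, hlv⟩ := mem_lo.1 hv
    obtain ⟨hvS', hlv'⟩ := mem_lo.1 hv'
    rw [← hl]
    exact h.two_edges hu h6 hxS hlx h4 hvS hlv htv hxv hux.symm hxS' hlx' h4' hvS' hlv' htv'
      hxv' hux'.symm hne
  have f5 : 1 ≤ ((ln G S u).filter fun x => ty G S o x = 5).card →
      (ln G S u).card + 2 ≤ dg G S u ∧ 7 ≤ dg G S u := by
    intro h1
    obtain ⟨x, hx⟩ := card_pos.1 h1
    obtain ⟨h2, h3⟩ := mem_filter.1 hx
    obtain ⟨⟨hxS, hlx⟩, hux⟩ := mem_ln.1 h2
    rcases h.cases o (mem_lo.2 ⟨hxS, hlx⟩) with ⟨e, _⟩ | ⟨e, _⟩ | ⟨e, _⟩ |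
      ⟨e, _⟩ | ⟨e, _⟩ | ⟨e, h4, h5, v, hv, hxv, hnt⟩ | ⟨e, _⟩ | ⟨e, _⟩
    all_goals first | omega | skip
    obtain ⟨hvS, hlv⟩ := mem_lo.1 hv
    have hntu : ¬ Tw G S x u := fun h6 => hdu (by rw [tws_low hxS hu h6, hlx])
    have huv : u ≠ v := fun e => hdu (e ▸ hlv)
    rw [← hl]
    exact ⟨h.df_nb hxS hlx h4 hvS hlv hxv hnt hu hux.symm hntu huv,
      ((h.df hxS hlx h4 hvS hlv hxv hnt).2.2 u hu hux.symm hntu huv).2⟩
  have f67 : 1 ≤ ((ln G S u).filter fun x => ty G S o x = 6).card +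
      ((ln G S u).filter fun x => ty G S o x = 7).card → 8 ≤ dg G S u := by
    intro h1
    have h2 : ∃ x ∈ ln G S u, ty G S o x = 6 ∨ ty G S o x = 7 := by
      rcases (by omega : 1 ≤ ((ln G S u).filter fun x => ty G S o x = 6).card ∨
        1 ≤ ((ln G S u).filter fun x => ty G S o x = 7).card) with h2 | h2
      · obtain ⟨x, hx⟩ := card_pos.1 h2
        exact ⟨x, (mem_filter.1 hx).1, Or.inl (mem_filter.1 hx).2⟩
      · obtain ⟨x, hx⟩ := card_pos.1 h2
        exact ⟨x, (mem_filter.1 hx).1, Or.inr (mem_filter.1 hx).2⟩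
    obtain ⟨x, h2, h3⟩ := h2
    obtain ⟨⟨hxS, hlx⟩, hux⟩ := mem_ln.1 h2
    have hntu : ¬ Tw G S x u := fun h6 => hdu (by rw [tws_low hxS hu h6, hlx])
    rcases h.cases o (mem_lo.2 ⟨hxS, hlx⟩) with ⟨e, _⟩ | ⟨e, _⟩ | ⟨e, _⟩ |
      ⟨e, _⟩ | ⟨e, _⟩ | ⟨e, _⟩ | ⟨e, h4, _⟩ | ⟨e, h4, _⟩
    all_goals first | omega | skip
    · exact h.three hxS hlx h4 hu hux.symm hntu
    · exact h.three hxS hlx h4 hu hux.symm hntu
  rw [e2] at e4
  rw [e1]
  simp only [gC, iC] at e4 ⊢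
  generalize ((ln G S u).filter fun x => ty G S o x = 0).card = c0 at *
  generalize ((ln G S u).filter fun x => ty G S o x = 1).card = c1 at *
  generalize ((ln G S u).filter fun x => ty G S o x = 2).card = c2 at *
  generalize ((ln G S u).filter fun x => ty G S o x = 3).card = c3 at *
  generalize ((ln G S u).filter fun x => ty G S o x = 4).card = c4 at *
  generalize ((ln G S u).filter fun x => ty G S o x = 5).card = c5 at *
  generalize ((ln G S u).filter fun x => ty G S o x = 6).card = c6 at *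
  generalize ((ln G S u).filter fun x => ty G S o x = 7).card = c7 at *
  generalize (ln G S u).card = l at *
  have w1 : (dg G S u : ℤ) - 4 - dg G (A1 G S o) u ≤ wa G S (A1 G S o) u ∧
      0 ≤ wa G S (A1 G S o) u := by
    unfold wa
    split_ifs <;> omega
  have w2 : (dg G S u : ℤ) - 4 - dg G (A2 G S o) u ≤ wa G S (A2 G S o) u ∧
      0 ≤ wa G S (A2 G S o) u := by
    unfold wa
    split_ifs <;> omega
  generalize wa G S (A1 G S o) u = W1 at *
  generalize wa G S (A2 G S o) u = W2 at *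
  generalize dg G (A1 G S o) u = b1 at *
  generalize dg G (A2 G S o) u = b2 at *
  generalize dg G S u = d at *
  clear e1 e2 hl
  rcases (by omega : d = 6 ∨ d = 7 ∨ 8 ≤ d) with h6 | h7 | h8
  · subst h6
    norm_num
    omega
  · subst h7
    have h67 : c6 = 0 ∧ c7 = 0 := by
      constructor
      · by_contra hc
        exact absurd (f67 (by omega)) (by omega)
      · by_contra hc
        exact absurd (f67 (by omega)) (by omega)
    obtain ⟨rfl, rfl⟩ := h67
    subst f45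
    norm_num at e3 e4 ⊢
    rcases (by omega : c4 = 0 ∨ c4 = 1 ∨ 2 ≤ c4) with hc | hc | hc
    · subst hc
      omega
    · subst hc
      omega
    · have hc' := f5 (by omega)
      have hc2 : c4 = 2 := by omega
      subst hc2
      have hc1 : c1 = 0 := by
        by_contra hc
        have := f1 (by omega)
        omega
      have hc3 : c3 = 0 := by
        by_contra hc
        have := f3 (by omega)
        omega
      subst hc1
      subst hc3
      omega
  · rw [if_pos (by omega)]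
    omega

end Pool.Agent.OX46
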