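import Pool.Agent.Lib_helper46.OX.E5

/-!
# Five colours: the end of the proof, low vertices and summation
-/

set_option autoImplicit false
set_option linter.unusedSectionVars false
set_option linter.unusedVariables false

open scoped Classical
open Finset
open Pool.Agent.O2 (PC Cb CrOn pr ms dg nd)
open Pool.Agent.O3 (con hit Clq)
open Pool.Agent.OW28 (NoCE)
open Pool.Agent.OW46 (km_aux bb)
open Pool.Agent.OW

namespace Pool.Agent.OX46

variable {V : Type} {G : SimpleGraph V} {S : Finset V}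

/-- the neighbours which are not low -/
noncomputable def hn (G : SimpleGraph V) (S : Finset V) (x : V) : Finset V :=
  (S.filter fun u => dg G S u ≠ 5).filter fun u => G.Adj x u

theorem mem_hn {x u : V} : u ∈ hn G S x ↔ (u ∈ S ∧ dg G S u ≠ 5) ∧ G.Adj x u := by
  unfold hn
  rw [mem_filter, mem_filter]

theorem hn_card (x : V) : (hn G S x).card + (ln G S x).card = dg G S x := by
  have h1 : Disjoint (hn G S x) (ln G S x) := by
    rw [disjoint_left]
    intro u hu hu'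
    exact (mem_hn.1 hu).1.2 (mem_ln.1 hu').1.2
  rw [← card_union_of_disjoint h1]
  unfold dg
  congr 1
  ext u
  rw [mem_union, mem_hn, mem_ln, mem_filter]
  constructor
  · rintro (⟨⟨h1, h2⟩, h3⟩ | ⟨⟨h1, h2⟩, h3⟩)
    · exact ⟨h1, h3⟩
    · exact ⟨h1, h3⟩
  · rintro ⟨h1, h2⟩
    by_cases h3 : dg G S u = 5
    · exact Or.inr ⟨⟨h1, h3⟩, h2⟩
    · exact Or.inl ⟨⟨h1, h3⟩, h2⟩

/-- what a low vertex sends -/
theorem L5.low (h : L5 G S) {o : V → ℕ} {x : V} (hx : x ∈ lo G S 5) :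
    1440 - 900 * iC (ty G S o x) + (if ty G S o x = 4 then 756 else 0) -
      (if ty G S o x = 2 then 756 else 0) ≤
      ∑ u ∈ hn G S x, gC (dg G S u) (ty G S o x) := by
  obtain ⟨hxS, hlx⟩ := mem_lo.1 hx
  have hc := hn_card (G := G) (S := S) x
  rw [hlx] at hc
  rcases h.cases o hx with ⟨e, h1, h2⟩ | ⟨e, h1, h2, v, hv, hxv, htv⟩ | ⟨e, h1, h2⟩ |
    ⟨e, h1, h2⟩ | ⟨e, h1, h2, v, hv, hxv, hnt⟩ | ⟨e, h1, h2, v, hv, hxv, hnt⟩ |
    ⟨e, h1, h2⟩ | ⟨e, h1, h2⟩
  · -- no low neighbour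
    have h3 : ln G S x = ∅ := by
      rw [eq_empty_iff_forall_notMem]
      intro v hv
      obtain ⟨h4, h5⟩ := mem_ln.1 hv
      exact h2 v (mem_lo.2 h4) h5
    rw [h3, card_empty] at hc
    rw [e]
    simp only [gC, iC, sum_const, nsmul_eq_mul]
    rw [show (hn G S x).card = 5 by omega]
    norm_num
  · -- one low neighbour
    obtain ⟨hvS, hlv⟩ := mem_lo.1 hv
    have h3 : ln G S x = {v} := by
      ext w
      rw [mem_singleton]
      constructor
      · intro hw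
        obtain ⟨h4, h5⟩ := mem_ln.1 hw
        by_contra hwv
        exact (h.edge hxS hlx h1 hvS hlv htv hxv).2 w h4.1 h5 hwv h4.2
      · rintro rfl
        exact mem_ln.2 ⟨⟨hvS, hlv⟩, hxv⟩
    rw [h3, card_singleton] at hc
    rw [e]
    simp only [gC, iC, sum_const, nsmul_eq_mul]
    rw [show (hn G S x).card = 4 by omega]
    norm_num
  · -- adjacent to a pair
    obtain ⟨-, v, hv, hxv, htv⟩ := h2
    obtain ⟨hvS, hlv⟩ := mem_lo.1 hv
    obtain ⟨h3, h4, h5⟩ := tp_spec htv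
    have hxt : x ≠ tp G S v := by
      intro h6
      have h7 := tws_card_tw hvS h3 h4
      rw [← h6] at h7
      omega
    have h6 : G.Adj (tp G S v) x := (h4.2 x hxS hxv.ne hxt).1 hxv.symm
    have h7 : 2 ≤ (ln G S x).card := one_lt_card.2 ⟨v, mem_ln.2 ⟨⟨hvS, hlv⟩, hxv⟩, tp G S v,
      mem_ln.2 ⟨⟨h3, by rw [tws_low hvS h3 h4, hlv]⟩, h6.symm⟩, h4.1.ne⟩
    rw [e]
    simp only [gC, iC, sum_const, nsmul_eq_mul]
    have h8 : ((hn G S x).card : ℤ) ≤ 3 := by
      have : (hn G S x).card ≤ 3 := by omega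
      exact_mod_cast this
    norm_num
    linarith
  · -- a pair without other low neighbours
    obtain ⟨h3, h4, h5⟩ := tp_spec h1
    have hly : dg G S (tp G S x) = 5 := by rw [tws_low hxS h3 h4, hlx]
    have h6 : ln G S x = {tp G S x} := by
      ext w
      rw [mem_singleton]
      constructor
      · intro hw
        obtain ⟨h7, h8⟩ := mem_ln.1 hw
        exact h5 w h7.1 (h2 w (mem_lo.2 h7) h8)
      · intro h7
        rw [h7]
        exact mem_ln.2 ⟨⟨h3, hly⟩, h4.1⟩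
    rw [h6, card_singleton] at hc
    have hnt : ∀ u ∈ hn G S x, ¬ Tw G S x u := fun u hu h7 =>
      (mem_hn.1 hu).1.2 (by rw [tws_low hxS (mem_hn.1 hu).1.1 h7, hlx])
    have h7 : ((hn G S x).filter fun u => ¬ 7 ≤ dg G S u).card ≤ 1 := by
      rw [card_le_one]
      intro a ha b hb
      obtain ⟨h8, h9⟩ := mem_filter.1 ha
      obtain ⟨h10, h11⟩ := mem_filter.1 hb
      obtain ⟨⟨h12, h13⟩, h14⟩ := mem_hn.1 h8
      obtain ⟨⟨h15, h16⟩, h17⟩ := mem_hn.1 h10
      by_contra hab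
      exact h.c3 x hxS hlx a h12 h14 b h15 h17 hab
        (h.c1 x hxS hlx a h12 h14 (hnt a h8) (by omega) (fun h18 => absurd h18 h13))
        (h.c1 x hxS hlx b h15 h17 (hnt b h10) (by omega) (fun h18 => absurd h18 h16))
    have h8 := card_filter_add_card_filter_not (s := hn G S x) (fun u => 7 ≤ dg G S u)
    have h9 : 3 ≤ ((hn G S x).filter fun u => 7 ≤ dg G S u).card := by omega
    have h10 : ∑ u ∈ hn G S x, gC (dg G S u) (ty G S o x) =
        180 * (((hn G S x).filter fun u => 7 ≤ dg G S u).card : ℤ) := by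
      rw [e]
      simp only [gC]
      rw [← sum_filter, sum_const, nsmul_eq_mul, mul_comm]
    rw [h10, e]
    simp only [iC]
    norm_num
    have : (3 : ℤ) ≤ (((hn G S x).filter fun u => 7 ≤ dg G S u).card : ℤ) := by exact_mod_cast h9
    linarith
  · obtain ⟨hvS, hlv⟩ := mem_lo.1 hv
    obtain ⟨h3, h4, h5⟩ := tp_spec h1
    have hly : dg G S (tp G S x) = 5 := by rw [tws_low hxS h3 h4, hlx]
    have h6 : ln G S x = {tp G S x, v} := by
      ext w
      rw [mem_insert, mem_singleton]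
      constructor
      · intro hw
        obtain ⟨h7, h8⟩ := mem_ln.1 hw
        by_cases h9 : Tw G S x w
        · exact Or.inl (h5 w h7.1 h9)
        · right
          by_contra hwv
          exact ((h.df hxS hlx h1 hvS hlv hxv hnt).2.2 w h7.1 h8 h9 hwv).1 h7.2
      · rintro (h7 | h7)
        · rw [h7]
          exact mem_ln.2 ⟨⟨h3, hly⟩, h4.1⟩
        · rw [h7]
          exact mem_ln.2 ⟨⟨hvS, hlv⟩, hxv⟩
    have hne : tp G S x ≠ v := fun h7 => hnt (h7 ▸ h4)
    rw [h6, card_pair hne] at hc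
    rw [e]
    simp only [gC, iC, sum_const, nsmul_eq_mul]
    rw [show (hn G S x).card = 3 by omega]
    norm_num
  · obtain ⟨hvS, hlv⟩ := mem_lo.1 hv
    obtain ⟨h3, h4, h5⟩ := tp_spec h1
    have hly : dg G S (tp G S x) = 5 := by rw [tws_low hxS h3 h4, hlx]
    have h6 : ln G S x = {tp G S x, v} := by
      ext w
      rw [mem_insert, mem_singleton]
      constructor
      · intro hw
        obtain ⟨h7, h8⟩ := mem_ln.1 hw
        by_cases h9 : Tw G S x w
        · exact Or.inl (h5 w h7.1 h9)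
        · right
          by_contra hwv
          exact ((h.df hxS hlx h1 hvS hlv hxv hnt).2.2 w h7.1 h8 h9 hwv).1 h7.2
      · rintro (h7 | h7)
        · rw [h7]
          exact mem_ln.2 ⟨⟨h3, hly⟩, h4.1⟩
        · rw [h7]
          exact mem_ln.2 ⟨⟨hvS, hlv⟩, hxv⟩
    have hne : tp G S x ≠ v := fun h7 => hnt (h7 ▸ h4)
    rw [h6, card_pair hne] at hc
    rw [e]
    simp only [gC, iC, sum_const, nsmul_eq_mul]
    rw [show (hn G S x).card = 3 by omega]
    norm_num
  · have h6 : ln G S x = tws G S x := by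
      ext w
      rw [mem_ln, mem_tws]
      constructor
      · rintro ⟨⟨h7, h8⟩, h9⟩
        refine ⟨h7, h9.ne', ?_⟩
        by_contra h10
        have := h.three hxS hlx h1 h7 h9 h10
        omega
      · rintro ⟨h7, h8, h9⟩
        exact ⟨⟨h7, by rw [tws_low hxS h7 h9, hlx]⟩, h9.1⟩
    rw [h6, h1] at hc
    rw [e]
    simp only [gC, iC, sum_const, nsmul_eq_mul]
    rw [show (hn G S x).card = 3 by omega]
    norm_num
  · have h6 : ln G S x = tws G S x := by
      ext w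
      rw [mem_ln, mem_tws]
      constructor
      · rintro ⟨⟨h7, h8⟩, h9⟩
        refine ⟨h7, h9.ne', ?_⟩
        by_contra h10
        have := h.three hxS hlx h1 h7 h9 h10
        omega
      · rintro ⟨h7, h8, h9⟩
        exact ⟨⟨h7, by rw [tws_low hxS h7 h9, hlx]⟩, h9.1⟩
    rw [h6, h1] at hc
    rw [e]
    simp only [gC, iC, sum_const, nsmul_eq_mul]
    rw [show (hn G S x).card = 3 by omega]
    norm_num

/-- there are at least as many chosen twins as vertices attached to pairs -/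
theorem L5.le24 (h : L5 G S) {o : V → ℕ} (ho : ∀ a ∈ S, ∀ b ∈ S, o a = o b → a = b) :
    ((lo G S 5).filter fun x => ty G S o x = 2).card ≤
      ((lo G S 5).filter fun x => ty G S o x = 4).card := by
  have key : ∀ v, ∃ x, v ∈ (lo G S 5).filter (fun x => ty G S o x = 2) →
      x ∈ (lo G S 5).filter (fun x => ty G S o x = 4) ∧ G.Adj x v ∧ ¬ Tw G S x v := by
    intro v
    by_cases hv : v ∈ (lo G S 5).filter (fun x => ty G S o x = 2)
    swap
    · exact ⟨v, fun h1 => absurd h1 hv⟩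
    obtain ⟨hvl, hvt⟩ := mem_filter.1 hv
    obtain ⟨hvS, hlv⟩ := mem_lo.1 hvl
    rcases h.cases o hvl with ⟨e, _⟩ | ⟨e, _⟩ | ⟨e, h1, h2⟩ | ⟨e, _⟩ | ⟨e, _⟩ | ⟨e, _⟩ |
      ⟨e, _⟩ | ⟨e, _⟩
    all_goals first | omega | skip
    obtain ⟨-, x, hx, hvx, htx⟩ := h2
    obtain ⟨hxS, hlx⟩ := mem_lo.1 hx
    have hnt : ¬ Tw G S x v := fun h3 => by
      have := tw_pos hxS h3.symm
      omega
    rcases h.cases o hx with ⟨e, _⟩ | ⟨e, _⟩ | ⟨e, _⟩ | ⟨e, _, h4⟩ | ⟨e, _⟩ | ⟨e, _⟩ |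
      ⟨e, _⟩ | ⟨e, _⟩
    all_goals first | omega | skip
    · exact absurd (h4 v hvl hvx.symm) hnt
    · exact ⟨x, fun _ => ⟨mem_filter.2 ⟨hx, e⟩, hvx.symm, hnt⟩⟩
    · obtain ⟨h5, h6⟩ := h.tp5 ho hx e
      obtain ⟨h7, h8⟩ := tp_nt hxS h5 hvS hvx.symm hnt
      exact ⟨tp G S x, fun _ => ⟨mem_filter.2 ⟨tp_lo hx h5, h6⟩, h7, h8⟩⟩
  choose f hf using key
  apply card_le_card_of_injOn f
  · intro v hv
    exact mem_coe.2 (hf v (mem_coe.1 hv)).1
  · intro v hv w hw hvw
    obtain ⟨h1, h2, h3⟩ := hf v (mem_coe.1 hv)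
    obtain ⟨h4, h5, h6⟩ := hf w (mem_coe.1 hw)
    rw [← hvw] at h4 h5 h6
    by_contra hne
    obtain ⟨hxl, hxt⟩ := mem_filter.1 h1
    obtain ⟨hxS, hlx⟩ := mem_lo.1 hxl
    obtain ⟨hvS, hlv⟩ := mem_lo.1 (mem_filter.1 (mem_coe.1 hv)).1
    obtain ⟨hwS, hlw⟩ := mem_lo.1 (mem_filter.1 (mem_coe.1 hw)).1
    have h7 := (h.tp4 ho hxl hxt).1
    exact ((h.df hxS hlx h7 hvS hlv h2 h3).2.2 w hwS h5 h6 (Ne.symm hne)).1 hlw

/-- the kernel bound with the waste -/
theorem km_w {A : Finset V} (h : CrOn G S 5) (hA : ∀ a ∈ A, ∀ b ∈ A, ¬ G.Adj a b)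
    (hAl : A ⊆ lo G S 5) :
    ∑ u ∈ S.filter (fun u => dg G S u ≠ 5), wa G S A u + 5 * A.card + df G 5 S ≤
      2 * (S.card : ℤ) := by
  have hAS : A ⊆ S := fun x hx => (mem_lo.1 (hAl hx)).1
  have hAd : ∀ x ∈ A, dg G S x = 5 := fun x hx => (mem_lo.1 (hAl hx)).2
  set R := (S.filter fun u => dg G S u ≠ 5).filter fun u => 4 + dg G A u ≤ dg G S u with hR
  have hRS : R ⊆ S \ A := by
    intro u hu
    obtain ⟨h1, -⟩ := mem_filter.1 hu
    obtain ⟨h2, h3⟩ := mem_filter.1 h1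
    exact mem_sdiff.2 ⟨h2, fun h4 => h3 (hAd u h4)⟩
  have h1 := (km_aux (by norm_num : 0 < 5) h _ A ((S \ A) \ R) rfl hAS
    (sdiff_subset.trans sdiff_subset)
    (by
      rw [disjoint_left]
      intro x hx hx'
      exact (mem_sdiff.1 (mem_sdiff.1 hx').1).2 hx) hA (fun x hx => (hAd x hx).le)).1
  have h2 := bb_sum hAS hA hAd
  have h3 := sum_sdiff (f := fun u => bb G S 5 A u) hRS
  have h4 : ∑ u ∈ S.filter (fun u => dg G S u ≠ 5), wa G S A u =
      - ∑ u ∈ R, bb G S 5 A u := by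
    unfold wa
    rw [← sum_filter, ← sum_neg_distrib]
    apply sum_congr rfl
    intro u hu
    unfold bb
    push_cast
    ring
  rw [h4]
  push_cast at h2 h3 h1 ⊢
  linarith

/-- the end of the proof for five colours -/
theorem end5 (h : L5 G S) (hn2 : 2 * (S.card : ℤ) + 2 ≤ 5 * df G 5 S) : False := by
  obtain ⟨o, ho⟩ := exists_ord S
  have k1 := km_w h.cr (A1_ind (G := G) (S := S) (o := o)) (filter_subset _ _)
  have k2 := km_w h.cr (A2_ind (G := G) (S := S) (o := o)) (filter_subset _ _)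
  have hc := h.cards ho
  set H := S.filter fun u => dg G S u ≠ 5 with hH
  -- the high side
  have hi : ∑ u ∈ H, ∑ x ∈ ln G S u, gC (dg G S u) (ty G S o x) ≤
      ∑ u ∈ H, (1440 * ((dg G S u : ℤ) - 6) +
        180 * (wa G S (A1 G S o) u + wa G S (A2 G S o) u)) :=
    sum_le_sum fun u hu => h.high ho (mem_filter.1 hu).1 (mem_filter.1 hu).2
  have hi2 : ∑ u ∈ H, (1440 * ((dg G S u : ℤ) - 6) +
        180 * (wa G S (A1 G S o) u + wa G S (A2 G S o) u)) =
      1440 * ∑ u ∈ H, ((dg G S u : ℤ) - 6) + 180 * (∑ u ∈ H, wa G S (A1 G S o) u +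
        ∑ u ∈ H, wa G S (A2 G S o) u) := by
    rw [sum_add_distrib, ← mul_sum, ← mul_sum, sum_add_distrib]
  -- the low side
  have lw : ∑ x ∈ lo G S 5, (1440 - 900 * iC (ty G S o x) +
      (if ty G S o x = 4 then (756 : ℤ) else 0) - (if ty G S o x = 2 then 756 else 0)) ≤
      ∑ x ∈ lo G S 5, ∑ u ∈ hn G S x, gC (dg G S u) (ty G S o x) :=
    sum_le_sum fun x hx => h.low hx
  have lw2 : ∑ x ∈ lo G S 5, (1440 - 900 * iC (ty G S o x) +
      (if ty G S o x = 4 then (756 : ℤ) else 0) - (if ty G S o x = 2 then 756 else 0)) =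
      1440 * ((lo G S 5).card : ℤ) - 900 * ∑ x ∈ lo G S 5, iC (ty G S o x) +
      756 * (((lo G S 5).filter fun x => ty G S o x = 4).card : ℤ) -
      756 * (((lo G S 5).filter fun x => ty G S o x = 2).card : ℤ) := by
    rw [sum_sub_distrib, sum_add_distrib, sum_sub_distrib, ← mul_sum, sum_const, nsmul_eq_mul,
      ← sum_filter, ← sum_filter, sum_const, sum_const, nsmul_eq_mul, nsmul_eq_mul]
    ring
  have sw : ∑ x ∈ lo G S 5, ∑ u ∈ hn G S x, gC (dg G S u) (ty G S o x) =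
      ∑ u ∈ H, ∑ x ∈ ln G S u, gC (dg G S u) (ty G S o x) := by
    apply sum_comm'
    intro x u
    rw [hH, mem_filter, mem_hn, mem_ln, mem_lo]
    constructor
    · rintro ⟨h1, h2, h3⟩
      exact ⟨⟨h1, h3.symm⟩, h2⟩
    · rintro ⟨⟨h1, h3⟩, h2⟩
      exact ⟨h1, h2, h3.symm⟩
  have h24 : (((lo G S 5).filter fun x => ty G S o x = 2).card : ℤ) ≤
      ((lo G S 5).filter fun x => ty G S o x = 4).card := by exact_mod_cast h.le24 ho
  -- `df`
  have hdf : df G 5 S = (lo G S 5).card - ∑ u ∈ H, ((dg G S u : ℤ) - 6) := by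
    have e1 : df G 5 S = ∑ y ∈ S, ((6 : ℤ) - dg G S y) := by
      unfold df
      rw [Pool.Agent.O2.pr_sum, sum_sub_distrib, sum_const, nsmul_eq_mul]
      push_cast
      ring
    rw [e1, ← sum_filter_add_sum_filter_not S (fun u => dg G S u = 5)]
    have e2 : ∑ y ∈ S.filter (fun u => dg G S u = 5), ((6 : ℤ) - dg G S y) =
        (lo G S 5).card := by
      unfold lo
      rw [sum_congr rfl (g := fun _ => (1 : ℤ)) (fun y hy => by
        rw [(mem_filter.1 hy).2]; norm_num), sum_const, nsmul_eq_mul, mul_one]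
    have e3 : ∑ y ∈ S.filter (fun u => ¬ dg G S u = 5), ((6 : ℤ) - dg G S y) =
        - ∑ u ∈ H, ((dg G S u : ℤ) - 6) := by
      rw [← sum_neg_distrib]
      exact sum_congr rfl fun y _ => by ring
    rw [e2, e3]
    ring
  rw [lw2, sw] at lw
  rw [hi2] at hi
  linarith

end Pool.Agent.OX46
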