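import Pool.Agent.Lib_helper46.OX.Lo6

/-!
# Six colours: the end of the proof
-/

set_option autoImplicit false
set_option linter.unusedSectionVars false
set_option linter.unusedVariables false

open scoped Classical
open Finset
open Pool.Agent.O2 (PC Cb CrOn pr ms dg nd)
open Pool.Agent.O3 (con hit Clq)
open Pool.Agent.OW28 (NoCE)
open Pool.Agent.OW46 (km_aux bb)
open Pool.Agent.OW

namespace Pool.Agent.OX46.Six

variable {V : Type} {G : SimpleGraph V} {S : Finset V}

theorem df_eq : df G 6 S = (lo G S 6).card -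
    ∑ u ∈ S.filter (fun u => dg G S u ≠ 6), ((dg G S u : ℤ) - 7) := by
  have e1 : df G 6 S = ∑ y ∈ S, ((7 : ℤ) - dg G S y) := by
    unfold df
    rw [Pool.Agent.O2.pr_sum, sum_sub_distrib, sum_const, nsmul_eq_mul]
    push_cast
    ring
  rw [e1, ← sum_filter_add_sum_filter_not S (fun u => dg G S u = 6)]
  have e2 : ∑ y ∈ S.filter (fun u => dg G S u = 6), ((7 : ℤ) - dg G S y) =
      (lo G S 6).card := by
    unfold lo
    rw [sum_congr rfl (g := fun _ => (1 : ℤ)) (fun y hy => by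
      rw [(mem_filter.1 hy).2]; norm_num), sum_const, nsmul_eq_mul, mul_one]
  have e3 : ∑ y ∈ S.filter (fun u => ¬ dg G S u = 6), ((7 : ℤ) - dg G S y) =
      - ∑ u ∈ S.filter (fun u => dg G S u ≠ 6), ((dg G S u : ℤ) - 7) := by
    rw [← sum_neg_distrib]
    exact sum_congr rfl fun y _ => by ring
  rw [e2, e3]
  ring

theorem L6.cnt (h : L6 G S) {o : V → ℤ} (ho : ∀ a ∈ S, ∀ b ∈ S, o a = o b → a = b) :
    6 * (((AA G S o).card : ℤ) + (AA G S fun v => - o v).card) =
      ∑ x ∈ lo G S 6, iq (ty G S x) := by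
  have h1 := h.avg ho (N := lo G S 6) (Subset.refl _) (fun x hx y hy => clu_lo hx hy)
  rw [ia_cards] at h1
  exact h1

/-- a large independent set of low vertices -/
theorem L6.indep (h : L6 G S) (h5 : C5 G S) : ∃ A ⊆ lo G S 6,
    (∀ a ∈ A, ¬ isF G S a) ∧
    (∀ a ∈ A, ∀ b ∈ A, ¬ G.Adj a b) ∧ Pool.Agent.OW.df G 6 S ≤ A.card := by
  obtain ⟨o, ho⟩ := exists_ord S
  have hb := h.bal (g := gA) (cost := fun j => 360 - 30 * iq j) (k := 60) (by norm_num)
    (fun x hx => h.lowA hx)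
  have hi : ∑ u ∈ S.filter (fun u => dg G S u ≠ 6), ∑ x ∈ ln G S u, gA (dg G S u) (ty G S x) ≤
      ∑ u ∈ S.filter (fun u => dg G S u ≠ 6), 360 * ((dg G S u : ℤ) - 7) :=
    sum_le_sum fun u hu => h.highA h5 (mem_filter.1 hu).1 (mem_filter.1 hu).2
  rw [← mul_sum] at hi
  rw [sum_sub_distrib, sum_const, nsmul_eq_mul, ← mul_sum, ← h.cnt ho] at hb
  have hd := df_eq (G := G) (S := S)
  rcases le_total ((AA G S o).card : ℤ) (AA G S fun v => - o v).card with h1 | h1
  · exact ⟨AA G S fun v => - o v, filter_subset _ _, fun a ha => (mem_AA.1 ha).2.1, AA_ind,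
      by linarith⟩
  · exact ⟨AA G S o, filter_subset _ _, fun a ha => (mem_AA.1 ha).2.1, AA_ind, by linarith⟩

/-- the kernel bound with the waste -/
theorem km_w {A : Finset V} (h : CrOn G S 6) (hA : ∀ a ∈ A, ∀ b ∈ A, ¬ G.Adj a b)
    (hAl : A ⊆ lo G S 6) :
    ∑ u ∈ S.filter (fun u => dg G S u ≠ 6), wa G S A u + 6 * A.card + df G 6 S ≤
      2 * (S.card : ℤ) ∧ (A.Nonempty → ∑ u ∈ S.filter (fun u => dg G S u ≠ 6), wa G S A u +
        6 * A.card + df G 6 S + 1 ≤ 2 * (S.card : ℤ)) := by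
  have hAS : A ⊆ S := fun x hx => (mem_lo.1 (hAl hx)).1
  have hAd : ∀ x ∈ A, dg G S x = 6 := fun x hx => (mem_lo.1 (hAl hx)).2
  set R := (S.filter fun u => dg G S u ≠ 6).filter fun u => 5 + dg G A u ≤ dg G S u with hR
  have hRS : R ⊆ S \ A := by
    intro u hu
    obtain ⟨h1, -⟩ := mem_filter.1 hu
    obtain ⟨h2, h3⟩ := mem_filter.1 h1
    exact mem_sdiff.2 ⟨h2, fun h4 => h3 (hAd u h4)⟩
  have h1 := (km_aux (by norm_num : 0 < 6) h _ A ((S \ A) \ R) rfl hAS
    (sdiff_subset.trans sdiff_subset)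
    (by
      rw [disjoint_left]
      intro x hx hx'
      exact (mem_sdiff.1 (mem_sdiff.1 hx').1).2 hx) hA (fun x hx => (hAd x hx).le))
  have h2 := bb_sum hAS hA hAd
  have h3 := sum_sdiff (f := fun u => bb G S 6 A u) hRS
  have h4 : ∑ u ∈ S.filter (fun u => dg G S u ≠ 6), wa G S A u =
      - ∑ u ∈ R, bb G S 6 A u := by
    unfold wa
    rw [← sum_filter, ← sum_neg_distrib]
    apply sum_congr rfl
    intro u hu
    unfold bb
    push_cast
    ring
  rw [h4]
  obtain ⟨h1, h1'⟩ := h1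
  push_cast at h2 h3 h1 ⊢
  refine ⟨by linarith, fun hn => ?_⟩
  have h5 := h1' hn
  linarith

theorem wa_nonneg (A : Finset V) (u : V) : 0 ≤ wa G S A u := by
  unfold wa
  split_ifs <;> omega

/-- the set is not empty: the strict form of the kernel bound -/
theorem km_s {A : Finset V} (h : CrOn G S 6) (hA : ∀ a ∈ A, ∀ b ∈ A, ¬ G.Adj a b)
    (hAl : A ⊆ lo G S 6) (hAn : A.Nonempty) :
    6 * (A.card : ℤ) + df G 6 S + 1 ≤ 2 * (S.card : ℤ) := by
  have hAS : A ⊆ S := fun x hx => (mem_lo.1 (hAl hx)).1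
  have hAd : ∀ x ∈ A, dg G S x = 6 := fun x hx => (mem_lo.1 (hAl hx)).2
  exact_mod_cast kd_le (by norm_num : 0 < 6) h hAn hAS hA hAd

/-- residues three and four -/
theorem end6_34 (h : L6 G S) (h5 : C5 G S) (hd : 1 ≤ df G 6 S)
    (hn2 : 2 * (S.card : ℤ) ≤ 7 * df G 6 S) : False := by
  obtain ⟨A, hA, -, hi, hc⟩ := h.indep h5
  have hAn : A.Nonempty := by
    apply card_pos.1
    omega
  have := km_s h.cr hi hA hAn
  linarith

/-- residue two -/
theorem end6_2 (h : L6 G S) (hS : S.Nonempty) (hn2 : 2 * (S.card : ℤ) ≤ 6 * df G 6 S) :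
    False := by
  obtain ⟨o, ho⟩ := exists_ord S
  have hb := h.bal (g := gC) (cost := fun j => 72 * (6 - iq j)) (k := 72) (by norm_num)
    (fun x hx => h.lowC hx)
  have hi : ∑ u ∈ S.filter (fun u => dg G S u ≠ 6), ∑ x ∈ ln G S u, gC (dg G S u) (ty G S x) ≤
      ∑ u ∈ S.filter (fun u => dg G S u ≠ 6), 72 * (4 * ((dg G S u : ℤ) - 7) - 2 +
        (wa G S (AA G S o) u + wa G S (AA G S fun v => - o v) u)) :=
    sum_le_sum fun u hu => h.highC ho (mem_filter.1 hu).1 (mem_filter.1 hu).2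
  rw [← mul_sum, sum_add_distrib, sum_sub_distrib, sum_const, nsmul_eq_mul, ← mul_sum,
    sum_add_distrib] at hi
  rw [← mul_sum, sum_sub_distrib, sum_const, nsmul_eq_mul, ← h.cnt ho] at hb
  have hd := df_eq (G := G) (S := S)
  have hc : (S.filter fun u => dg G S u ≠ 6).card + (lo G S 6).card = S.card := by
    have h1 : (lo G S 6).card + (S.filter fun u => dg G S u ≠ 6).card = S.card :=
      card_filter_add_card_filter_not (s := S) (fun u => dg G S u = 6)
    omega
  have hc' : ((S.filter fun u => dg G S u ≠ 6).card : ℤ) + (lo G S 6).card = S.card := by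
    exact_mod_cast hc
  have hX : 0 ≤ ∑ u ∈ S.filter (fun u => dg G S u ≠ 6), ((dg G S u : ℤ) - 7) := by
    apply sum_nonneg
    intro u hu
    obtain ⟨h1, h2⟩ := mem_filter.1 hu
    have := h.cr.dg_ge h1
    omega
  have hSp : (0 : ℤ) < S.card := by exact_mod_cast card_pos.2 hS
  have hp : 0 < ∑ x ∈ lo G S 6, iq (ty G S x) := by
    have h0 : ∀ j, 0 ≤ iq j := by
      intro j
      unfold iq
      split <;> norm_num
    have h3 : ∃ x ∈ lo G S 6, ty G S x ≠ 2 := by
      obtain ⟨x, hx⟩ : (lo G S 6).Nonempty := by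
        apply card_pos.1
        by_contra h4
        have h5 : (lo G S 6).card = 0 := by omega
        rw [h5] at hd
        push_cast at hd
        linarith
      by_cases h4 : ty G S x = 2
      · rcases h.cases hx with ⟨e, _⟩ | ⟨e, _⟩ | ⟨e, h1, h2⟩ |
          ⟨e, _⟩ | ⟨e, _⟩ | ⟨e, _⟩ | ⟨e, _⟩ | ⟨e, _⟩
        all_goals first | omega | skip
        obtain ⟨-, v, hv, hxv, htv⟩ := h2
        refine ⟨v, hv, ?_⟩
        rcases h.cases hv with ⟨e, _⟩ | ⟨e, _⟩ | ⟨e, h1, h2⟩ |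
          ⟨e, _⟩ | ⟨e, _⟩ | ⟨e, _⟩ | ⟨e, _⟩ | ⟨e, _⟩ <;> omega
      · exact ⟨x, hx, h4⟩
    obtain ⟨x, hx, hx2⟩ := h3
    refine sum_pos' (fun y _ => h0 _) ⟨x, hx, ?_⟩
    have := ty_lt (G := G) (S := S) x
    generalize ty G S x = j at *
    interval_cases j
    all_goals first | (exfalso; exact hx2 rfl) | norm_num [iq]
  rw [← h.cnt ho] at hp
  obtain ⟨k1, k1'⟩ := km_w h.cr (AA_ind (G := G) (S := S) (o := o)) (filter_subset _ _)
  obtain ⟨k2, k2'⟩ := km_w h.cr (AA_ind (G := G) (S := S) (o := fun v => - o v))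
    (filter_subset _ _)
  rcases (AA G S o).eq_empty_or_nonempty with he | he
  · rw [he, card_empty] at hp
    have he2 : (AA G S fun v => - o v).Nonempty := by
      apply card_pos.1
      omega
    have := k2' he2
    linarith
  · have := k1' he
    linarith

end Pool.Agent.OX46.Six
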