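import Pool.Agent.Lib_helper46.OX.Hi6

/-!
# Six colours: the second scheme at a vertex which is not low
-/

set_option autoImplicit false
set_option linter.unusedSectionVars false
set_option linter.unusedVariables false

open scoped Classical
open Finset
open Pool.Agent.O2 (PC Cb CrOn pr ms dg nd)
open Pool.Agent.O3 (con hit Clq)
open Pool.Agent.OW28 (NoCE)
open Pool.Agent.OW

namespace Pool.Agent.OX46.Six

variable {V : Type} {G : SimpleGraph V} {S : Finset V}

/-- the waste at `u` -/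
noncomputable def wa (G : SimpleGraph V) (S A : Finset V) (u : V) : ℤ :=
  if 5 + dg G A u ≤ dg G S u then (dg G S u : ℤ) - 5 - dg G A u else 0

/-- the second scheme at a vertex which is not low -/
theorem L6.highC (h : L6 G S) {o : V → ℤ} (ho : ∀ a ∈ S, ∀ b ∈ S, o a = o b → a = b) {u : V}
    (hu : u ∈ S) (hdu : dg G S u ≠ 6) :
    ∑ x ∈ ln G S u, gC (dg G S u) (ty G S x) ≤
      72 * (4 * ((dg G S u : ℤ) - 7) - 2 + (wa G S (AA G S o) u +
        wa G S (AA G S fun v => - o v) u)) := by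
  have e1 := sum_ty (ln G S u) (ty G S) (fun x _ => ty_lt x) (gC (dg G S u))
  have e2 := sum_ty (ln G S u) (ty G S) (fun x _ => ty_lt x) iq
  obtain ⟨n1, n2, n3, n4, n5, n6, n7, n8⟩ := h.nums hu hdu
  have d3 := h.dvd hu hdu (j := 3) (c := 2) (by omega)
  have d4 := h.dvd hu hdu (j := 4) (c := 2) (by omega)
  have d5 := h.dvd hu hdu (j := 5) (c := 3) (by omega)
  have d6 := h.dvd hu hdu (j := 6) (c := 3) (by omega)
  have d7 := h.dvd hu hdu (j := 7) (c := 4) (by omega)
  have e4 := h.avg ho (N := ln G S u) (fun x hx => mem_lo.2 (mem_ln.1 hx).1) (ln_clu hu hdu)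
  have e5 := ia_nbs (G := G) (S := S) (o := o) u
  change ∑ x ∈ ln G S u, ia G S o x = _ at e5
  rw [e5, e2] at e4
  rw [e1]
  simp only [gC]
  simp only [iq] at e4
  change _ * ((lt G S u 0).card : ℤ) + _ * ((lt G S u 1).card : ℤ) +
    _ * ((lt G S u 2).card : ℤ) + _ * ((lt G S u 3).card : ℤ) +
    _ * ((lt G S u 4).card : ℤ) + _ * ((lt G S u 5).card : ℤ) +
    _ * ((lt G S u 6).card : ℤ) + _ * ((lt G S u 7).card : ℤ) ≤ _
  change _ = _ * ((lt G S u 0).card : ℤ) + _ * ((lt G S u 1).card : ℤ) +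
    _ * ((lt G S u 2).card : ℤ) + _ * ((lt G S u 3).card : ℤ) +
    _ * ((lt G S u 4).card : ℤ) + _ * ((lt G S u 5).card : ℤ) +
    _ * ((lt G S u 6).card : ℤ) + _ * ((lt G S u 7).card : ℤ) at e4
  have w1 : (dg G S u : ℤ) - 5 - dg G (AA G S o) u ≤ wa G S (AA G S o) u ∧
      0 ≤ wa G S (AA G S o) u := by
    unfold wa
    split_ifs <;> omega
  have w2 : (dg G S u : ℤ) - 5 - dg G (AA G S fun v => - o v) u ≤
      wa G S (AA G S fun v => - o v) u ∧ 0 ≤ wa G S (AA G S fun v => - o v) u := by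
    unfold wa
    split_ifs <;> omega
  generalize wa G S (AA G S o) u = W1 at *
  generalize wa G S (AA G S fun v => - o v) u = W2 at *
  generalize dg G (AA G S o) u = b1 at *
  generalize dg G (AA G S fun v => - o v) u = b2 at *
  generalize (lt G S u 0).card = c0 at *
  generalize (lt G S u 1).card = c1 at *
  generalize (lt G S u 2).card = c2 at *
  generalize (lt G S u 3).card = c3 at *
  generalize (lt G S u 4).card = c4 at *
  generalize (lt G S u 5).card = c5 at *
  generalize (lt G S u 6).card = c6 at *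
  generalize (lt G S u 7).card = c7 at *
  generalize (ln G S u).card = l at *
  generalize dg G S u = d at *
  clear e1 e2 e5
  obtain ⟨p3, rfl⟩ := d3
  obtain ⟨p4, rfl⟩ := d4
  obtain ⟨p5, rfl⟩ := d5
  obtain ⟨p6, rfl⟩ := d6
  obtain ⟨p7, rfl⟩ := d7
  push_cast at e4
  rcases (by omega : d = 7 ∨ d = 8 ∨ d = 9 ∨ d = 10 ∨ 11 ≤ d) with h6 | h7 | h8 | h9 | h10
  · subst h6
    norm_num at w1 w2 ⊢
    push_cast
    have hp7 : p7 = 0 := by omega
    have hp6 : p6 = 0 := by omega
    have hp4 : p4 = 0 := by omega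
    subst hp7
    subst hp6
    subst hp4
    rcases (by omega : c1 = 0 ∨ c1 = 1 ∨ 2 ≤ c1) with hq | hq | hq
    · subst hq
      omega
    · subst hq
      omega
    · omega
  · subst h7
    norm_num at w1 w2 ⊢
    push_cast
    have hp7 : p7 = 0 := by omega
    have hp6 : p6 = 0 := by omega
    subst hp7
    subst hp6
    rcases (by omega : p4 = 0 ∨ p4 = 1 ∨ p4 = 2) with hp | hp | hp <;> subst hp <;> omega
  · subst h8
    norm_num at w1 w2 ⊢
    push_cast
    have hp7 : p7 = 0 := by omega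
    subst hp7
    rcases (by omega : p6 = 0 ∨ p6 = 1 ∨ p6 = 2) with hp | hp | hp <;> subst hp <;>
    rcases (by omega : p5 = 0 ∨ p5 = 1 ∨ p5 = 2 ∨ p5 = 3) with hq | hq | hq | hq <;> subst hq <;>
    rcases (by omega : p4 = 0 ∨ p4 = 1 ∨ p4 = 2 ∨ p4 = 3) with hr | hr | hr | hr <;> subst hr <;>
      omega
  · subst h9
    norm_num at w1 w2 ⊢
    push_cast
    rcases (by omega : p7 = 0 ∨ p7 = 1 ∨ p7 = 2) with hp | hp | hp <;> subst hp <;>
    rcases (by omega : p6 = 0 ∨ p6 = 1 ∨ p6 = 2) with hp | hp | hp <;> subst hp <;>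
    rcases (by omega : p5 = 0 ∨ p5 = 1 ∨ p5 = 2 ∨ p5 = 3) with hq | hq | hq | hq <;> subst hq <;>
      omega
  · rw [if_pos (by omega), if_pos (by omega)]
    push_cast
    rcases (by omega : p6 = 0 ∨ 1 ≤ p6) with hp | hp
    · subst hp
      omega
    · have := n7 (by omega)
      omega

end Pool.Agent.OX46.Six
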