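import Pool.Agent.Lib_helper46.OX.Ind

/-!
# Five colours: the charges at a vertex which is not low
-/

set_option autoImplicit false
set_option linter.unusedSectionVars false
set_option linter.unusedVariables false

open scoped Classical
open Finset
open Pool.Agent.O2 (PC Cb CrOn pr ms dg nd)
open Pool.Agent.O3 (con hit Clq)
open Pool.Agent.OW28 (NoCE)
open Pool.Agent.OW

namespace Pool.Agent.OX46

variable {V : Type} {G : SimpleGraph V} {S : Finset V}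

/-- what a low vertex of a given type sends to a neighbour of degree `d` -/
def gC (d : ℕ) : ℕ → ℤ
  | 0 => -72
  | 1 => 135
  | 2 => -72
  | 3 => if 7 ≤ d then 180 else 0
  | 4 => 432
  | 5 => 480
  | 6 => 180
  | _ => 480

theorem sum_ty {α : Type*} (N : Finset α) (f : α → ℕ) (hf : ∀ x ∈ N, f x < 8) (F : ℕ → ℤ) :
    ∑ x ∈ N, F (f x) =
      F 0 * (N.filter fun x => f x = 0).card + F 1 * (N.filter fun x => f x = 1).card +
      F 2 * (N.filter fun x => f x = 2).card + F 3 * (N.filter fun x => f x = 3).card +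
      F 4 * (N.filter fun x => f x = 4).card + F 5 * (N.filter fun x => f x = 5).card +
      F 6 * (N.filter fun x => f x = 6).card + F 7 * (N.filter fun x => f x = 7).card := by
  rw [← sum_fiberwise_of_maps_to (g := f) (t := range 8) (fun x hx => mem_range.2 (hf x hx))]
  have h1 : ∀ j ∈ range 8, ∑ x ∈ N.filter (fun x => f x = j), F (f x) =
      F j * (N.filter fun x => f x = j).card := by
    intro j _
    rw [sum_congr rfl (g := fun _ => F j) (fun x hx => by rw [(mem_filter.1 hx).2]), sum_const,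
      nsmul_eq_mul, mul_comm]
  rw [sum_congr rfl h1]
  simp only [sum_range_succ, sum_range_zero, zero_add]

/-- the twin of a vertex with one twin -/
noncomputable def tp (G : SimpleGraph V) (S : Finset V) (x : V) : V :=
  if h : (tws G S x).Nonempty then h.choose else x

theorem tp_spec {x : V} (h1 : (tws G S x).card = 1) :
    tp G S x ∈ S ∧ Tw G S x (tp G S x) ∧ ∀ y ∈ S, Tw G S x y → y = tp G S x := by
  have h2 : (tws G S x).Nonempty := card_pos.1 (by omega)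
  have h3 : tp G S x ∈ tws G S x := by
    unfold tp
    rw [dif_pos h2]
    exact h2.choose_spec
  obtain ⟨h4, h5, h6⟩ := mem_tws.1 h3
  refine ⟨h4, h6, fun y hy hxy => ?_⟩
  obtain ⟨z, hz⟩ := card_eq_one.1 h1
  have h7 : y ∈ tws G S x := mem_tws.2 ⟨hy, hxy.1.ne', hxy⟩
  rw [hz, mem_singleton] at h3 h7
  rw [h3, h7]

theorem tp_tp {x : V} (hx : x ∈ S) (h1 : (tws G S x).card = 1) :
    (tws G S (tp G S x)).card = 1 ∧ tp G S (tp G S x) = x := by
  obtain ⟨h2, h3, h4⟩ := tp_spec h1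
  have h5 : (tws G S (tp G S x)).card = 1 := by rw [tws_card_tw hx h2 h3, h1]
  exact ⟨h5, ((tp_spec h5).2.2 x hx h3.symm).symm⟩

theorem tp_lo {x : V} (hx : x ∈ lo G S 5) (h1 : (tws G S x).card = 1) : tp G S x ∈ lo G S 5 := by
  obtain ⟨hxS, hlx⟩ := mem_lo.1 hx
  obtain ⟨h2, h3, h4⟩ := tp_spec h1
  exact mem_lo.2 ⟨h2, by rw [tws_low hxS h2 h3, hlx]⟩

theorem tp_adj {x u : V} (h1 : (tws G S x).card = 1) (hu : u ∈ S) (hxu : G.Adj u x)
    (hne : u ≠ tp G S x) : G.Adj u (tp G S x) := by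
  obtain ⟨h2, h3, h4⟩ := tp_spec h1
  exact ((h3.2 u hu hxu.ne hne).1 hxu.symm).symm

/-- the twin has a low neighbour which is not a twin -/
theorem tp_nt {x v : V} (hx : x ∈ S) (h1 : (tws G S x).card = 1) (hv : v ∈ S)
    (hxv : G.Adj x v) (hnt : ¬ Tw G S x v) :
    G.Adj (tp G S x) v ∧ ¬ Tw G S (tp G S x) v := by
  obtain ⟨h2, h3, h4⟩ := tp_spec h1
  have h5 : v ≠ tp G S x := fun e => hnt (e ▸ h3)
  exact ⟨(h3.2 v hv hxv.ne' h5).1 hxv, fun h6 => hnt (tw_trans hx h2 hv hxv.ne h3 h6)⟩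

theorem L5.tp4 (h : L5 G S) {o : V → ℕ} (ho : ∀ a ∈ S, ∀ b ∈ S, o a = o b → a = b) {x : V}
    (hx : x ∈ lo G S 5) (hty : ty G S o x = 4) :
    (tws G S x).card = 1 ∧ ty G S o (tp G S x) = 5 := by
  obtain ⟨hxS, hlx⟩ := mem_lo.1 hx
  rcases h.cases o hx with ⟨e, _⟩ | ⟨e, _⟩ | ⟨e, _⟩ | ⟨e, _⟩ | ⟨e, h1, h2, v, hv, hxv, hnt⟩ |
    ⟨e, _⟩ | ⟨e, _⟩ | ⟨e, _⟩
  all_goals first | omega | skip
  refine ⟨h1, ?_⟩
  have hy := tp_lo hx h1
  obtain ⟨h3, h4, h5⟩ := tp_spec h1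
  obtain ⟨h6, h7⟩ := tp_tp hxS h1
  obtain ⟨h8, h9⟩ := tp_nt hxS h1 (mem_lo.1 hv).1 hxv hnt
  have h10 : tp G S x ∉ A2 G S o := by
    intro h11
    have h12 := (mem_filter.1 h11).2 x hx h4.1.symm
    have h13 := (mem_filter.1 h2).2 _ hy h4.1
    omega
  unfold ty
  rw [if_neg (by omega), if_pos h6, if_neg (fun h11 => h9 (h11 v hv h8)), if_neg h10]

theorem L5.tp5 (h : L5 G S) {o : V → ℕ} (ho : ∀ a ∈ S, ∀ b ∈ S, o a = o b → a = b) {x : V}
    (hx : x ∈ lo G S 5) (hty : ty G S o x = 5) :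
    (tws G S x).card = 1 ∧ ty G S o (tp G S x) = 4 := by
  obtain ⟨hxS, hlx⟩ := mem_lo.1 hx
  rcases h.cases o hx with ⟨e, _⟩ | ⟨e, _⟩ | ⟨e, _⟩ | ⟨e, _⟩ | ⟨e, _⟩ |
    ⟨e, h1, h2, v, hv, hxv, hnt⟩ | ⟨e, _⟩ | ⟨e, _⟩
  all_goals first | omega | skip
  refine ⟨h1, ?_⟩
  have hy := tp_lo hx h1
  obtain ⟨h3, h4, h5⟩ := tp_spec h1
  obtain ⟨h6, h7⟩ := tp_tp hxS h1
  obtain ⟨h8, h9⟩ := tp_nt hxS h1 (mem_lo.1 hv).1 hxv hnt
  have hFx : ¬ isF G S x := fun h11 => by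
    have := h11.1
    omega
  have hFy : ¬ isF G S (tp G S x) := fun h11 => by
    have := h11.1
    omega
  have hne := oo_ne ho hxS h3 h4.1.ne hFx hFy
  have hxp : 0 < oo G S o x := by
    unfold oo
    rw [if_neg hFx]
    omega
  have hyp : 0 < oo G S o (tp G S x) := by
    unfold oo
    rw [if_neg hFy]
    omega
  -- the label of the twin is larger
  have h12 : oo G S o x < oo G S o (tp G S x) := by
    by_contra h13
    apply h2
    refine mem_filter.2 ⟨hx, fun w hw hxw => ?_⟩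
    by_cases h14 : Tw G S x w
    · rw [h5 w (mem_lo.1 hw).1 h14]
      omega
    · have h15 := h.df_isF hx h1 hw hxw h14
      have h16 : oo G S o w = 0 := by
        unfold oo
        rw [if_pos h15]
      omega
  have h10 : tp G S x ∈ A2 G S o := by
    refine mem_filter.2 ⟨hy, fun w hw hyw => ?_⟩
    by_cases h14 : Tw G S (tp G S x) w
    · have h15 := (tp_spec h6).2.2 w (mem_lo.1 hw).1 h14
      rw [h7] at h15
      rw [h15]
      exact h12
    · have h15 := h.df_isF hy h6 hw hyw h14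
      have h16 : oo G S o w = 0 := by
        unfold oo
        rw [if_pos h15]
      omega
  unfold ty
  rw [if_neg (by omega), if_pos h6, if_neg (fun h11 => h9 (h11 v hv h8)), if_pos h10]

theorem L5.tp3 (h : L5 G S) {o : V → ℕ} {x : V}
    (hx : x ∈ lo G S 5) (hty : ty G S o x = 3) :
    (tws G S x).card = 1 ∧ ty G S o (tp G S x) = 3 := by
  obtain ⟨hxS, hlx⟩ := mem_lo.1 hx
  rcases h.cases o hx with ⟨e, _⟩ | ⟨e, _⟩ | ⟨e, _⟩ | ⟨e, h1, h2⟩ | ⟨e, _⟩ |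
    ⟨e, _⟩ | ⟨e, _⟩ | ⟨e, _⟩
  all_goals first | omega | skip
  refine ⟨h1, ?_⟩
  have hy := tp_lo hx h1
  obtain ⟨h3, h4, h5⟩ := tp_spec h1
  obtain ⟨h6, h7⟩ := tp_tp hxS h1
  have h8 : ∀ w ∈ lo G S 5, G.Adj (tp G S x) w → Tw G S (tp G S x) w := by
    intro w hw hyw
    by_cases hwx : w = x
    · rw [hwx]
      exact h4.symm
    · have h9 : G.Adj x w := (h4.2 w (mem_lo.1 hw).1 hwx hyw.ne').2 hyw
      exact absurd (h5 w (mem_lo.1 hw).1 (h2 w hw h9)) hyw.ne'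
  unfold ty
  rw [if_neg (by omega), if_pos h6, if_pos h8]

/-- the numbers of the two kinds of twins agree -/
theorem L5.eq45 (h : L5 G S) {o : V → ℕ} (ho : ∀ a ∈ S, ∀ b ∈ S, o a = o b → a = b) {u : V}
    (hu : u ∈ S) (hdu : dg G S u ≠ 5) :
    (((lo G S 5).filter fun x => G.Adj u x).filter fun x => ty G S o x = 4).card =
    (((lo G S 5).filter fun x => G.Adj u x).filter fun x => ty G S o x = 5).card := by
  apply le_antisymm
  · apply card_le_card_of_injOn (tp G S)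
    · intro x hx
      obtain ⟨h1, h2⟩ := mem_filter.1 (mem_coe.1 hx)
      obtain ⟨h3, h4⟩ := mem_filter.1 h1
      obtain ⟨h5, h6⟩ := h.tp4 ho h3 h2
      have h7 := tp_lo h3 h5
      exact mem_coe.2 (mem_filter.2 ⟨mem_filter.2 ⟨h7, tp_adj h5 hu h4 (fun e => by
        rw [e] at hdu
        exact hdu (mem_lo.1 h7).2)⟩, h6⟩)
    · intro x hx y hy hxy
      obtain ⟨h1, h2⟩ := mem_filter.1 (mem_coe.1 hx)
      obtain ⟨h3, h4⟩ := mem_filter.1 h1
      obtain ⟨h1', h2'⟩ := mem_filter.1 (mem_coe.1 hy)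
      obtain ⟨h3', h4'⟩ := mem_filter.1 h1'
      have h5 := (tp_tp (mem_lo.1 h3).1 (h.tp4 ho h3 h2).1).2
      have h6 := (tp_tp (mem_lo.1 h3').1 (h.tp4 ho h3' h2').1).2
      rw [← h5, ← h6, hxy]
  · apply card_le_card_of_injOn (tp G S)
    · intro x hx
      obtain ⟨h1, h2⟩ := mem_filter.1 (mem_coe.1 hx)
      obtain ⟨h3, h4⟩ := mem_filter.1 h1
      obtain ⟨h5, h6⟩ := h.tp5 ho h3 h2
      have h7 := tp_lo h3 h5
      exact mem_coe.2 (mem_filter.2 ⟨mem_filter.2 ⟨h7, tp_adj h5 hu h4 (fun e => by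
        rw [e] at hdu
        exact hdu (mem_lo.1 h7).2)⟩, h6⟩)
    · intro x hx y hy hxy
      obtain ⟨h1, h2⟩ := mem_filter.1 (mem_coe.1 hx)
      obtain ⟨h3, h4⟩ := mem_filter.1 h1
      obtain ⟨h1', h2'⟩ := mem_filter.1 (mem_coe.1 hy)
      obtain ⟨h3', h4'⟩ := mem_filter.1 h1'
      have h5 := (tp_tp (mem_lo.1 h3).1 (h.tp5 ho h3 h2).1).2
      have h6 := (tp_tp (mem_lo.1 h3').1 (h.tp5 ho h3' h2').1).2
      rw [← h5, ← h6, hxy]

theorem L5.two3 (h : L5 G S) {o : V → ℕ} {u : V}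
    (hu : u ∈ S) (hdu : dg G S u ≠ 5)
    (h1 : 1 ≤ (((lo G S 5).filter fun x => G.Adj u x).filter fun x => ty G S o x = 3).card) :
    2 ≤ (((lo G S 5).filter fun x => G.Adj u x).filter fun x => ty G S o x = 3).card := by
  obtain ⟨x, hx⟩ := card_pos.1 h1
  obtain ⟨h1, h2⟩ := mem_filter.1 hx
  obtain ⟨h3, h4⟩ := mem_filter.1 h1
  obtain ⟨h5, h6⟩ := h.tp3 h3 h2
  have h7 := tp_lo h3 h5
  have h8 : tp G S x ∈ ((lo G S 5).filter fun x => G.Adj u x).filter fun x => ty G S o x = 3 :=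
    mem_filter.2 ⟨mem_filter.2 ⟨h7, tp_adj h5 hu h4 (fun e => by
        rw [e] at hdu
        exact hdu (mem_lo.1 h7).2)⟩, h6⟩
  have h9 : x ≠ tp G S x := (tp_spec h5).2.1.1.ne
  exact one_lt_card.2 ⟨x, hx, _, h8, h9⟩

end Pool.Agent.OX46
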