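import Pool.Agent.Lib_helper46.OX.Ty6

/-!
# Six colours: the charges at a vertex which is not low
-/

set_option autoImplicit false
set_option linter.unusedSectionVars false
set_option linter.unusedVariables false

open scoped Classical
open Finset
open Pool.Agent.O2 (PC Cb CrOn pr ms dg nd)
open Pool.Agent.O3 (con hit Clq)
open Pool.Agent.OW28 (NoCE)
open Pool.Agent.OW

namespace Pool.Agent.OX46.Six

variable {V : Type} {G : SimpleGraph V} {S : Finset V}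

theorem sum_ty {α : Type*} (N : Finset α) (f : α → ℕ) (hf : ∀ x ∈ N, f x < 8) (F : ℕ → ℤ) :
    ∑ x ∈ N, F (f x) =
      F 0 * (N.filter fun x => f x = 0).card + F 1 * (N.filter fun x => f x = 1).card +
      F 2 * (N.filter fun x => f x = 2).card + F 3 * (N.filter fun x => f x = 3).card +
      F 4 * (N.filter fun x => f x = 4).card + F 5 * (N.filter fun x => f x = 5).card +
      F 6 * (N.filter fun x => f x = 6).card + F 7 * (N.filter fun x => f x = 7).card := by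
  rw [← sum_fiberwise_of_maps_to (g := f) (t := range 8) (fun x hx => mem_range.2 (hf x hx))]
  have h1 : ∀ j ∈ range 8, ∑ x ∈ N.filter (fun x => f x = j), F (f x) =
      F j * (N.filter fun x => f x = j).card := by
    intro j _
    rw [sum_congr rfl (g := fun _ => F j) (fun x hx => by rw [(mem_filter.1 hx).2]), sum_const,
      nsmul_eq_mul, mul_comm]
  rw [sum_congr rfl h1]
  simp only [sum_range_succ, sum_range_zero, zero_add]

/-- the low neighbours -/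
noncomputable def ln (G : SimpleGraph V) (S : Finset V) (u : V) : Finset V :=
  (lo G S 6).filter fun x => G.Adj u x

theorem mem_ln {u x : V} : x ∈ ln G S u ↔ (x ∈ S ∧ dg G S x = 6) ∧ G.Adj u x := by
  unfold ln
  rw [mem_filter, mem_lo]

/-- the low neighbours of type `j` -/
noncomputable def lt (G : SimpleGraph V) (S : Finset V) (u : V) (j : ℕ) : Finset V :=
  (ln G S u).filter fun x => ty G S x = j

theorem ln_clu {u : V} (hu : u ∈ S) (hdu : dg G S u ≠ 6) : ∀ x ∈ ln G S u, clu G S x ⊆ ln G S u := by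
  intro x hx y hy
  obtain ⟨h1, h2⟩ := mem_ln.1 hx
  have h3 := mem_lo.1 (clu_lo (mem_lo.2 h1) hy)
  refine mem_ln.2 ⟨h3, ?_⟩
  rcases (mem_clu.1 hy).2 with rfl | h4
  · exact h2
  · exact ((h4.2 u hu h2.ne (fun e => hdu (e ▸ h3.2))).1 h2.symm).symm

theorem lt_clu {u : V} (hu : u ∈ S) (hdu : dg G S u ≠ 6) (j : ℕ) :
    ∀ x ∈ lt G S u j, clu G S x ⊆ lt G S u j := by
  intro x hx y hy
  obtain ⟨h1, h2⟩ := mem_filter.1 hx
  refine mem_filter.2 ⟨ln_clu hu hdu x h1 hy, ?_⟩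
  rw [ty_tw (mem_lo.2 (mem_ln.1 h1).1) hy, h2]

theorem lt_S {u : V} (j : ℕ) : lt G S u j ⊆ S := fun x hx =>
  (mem_ln.1 (mem_filter.1 hx).1).1.1

/-- the number of vertices of a type with clusters of size `c` is divisible by `c` -/
theorem L6.dvd (h : L6 G S) {u : V} (hu : u ∈ S) (hdu : dg G S u ≠ 6) {j c : ℕ}
    (hj : (j = 3 ∧ c = 2) ∨ (j = 4 ∧ c = 2) ∨ (j = 5 ∧ c = 3) ∨ (j = 6 ∧ c = 3) ∨
      (j = 7 ∧ c = 4)) : c ∣ (lt G S u j).card := by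
  apply clu_dvd (lt_S j) (lt_clu hu hdu j)
  intro x hx
  obtain ⟨h1, h2⟩ := mem_filter.1 hx
  rcases h.cases (mem_lo.2 (mem_ln.1 h1).1) with ⟨e, h3, _⟩ | ⟨e, h3, _⟩ | ⟨e, h3, _⟩ |
    ⟨e, h3, _⟩ | ⟨e, h3, _⟩ | ⟨e, h3, _⟩ | ⟨e, h3, _⟩ | ⟨e, h3⟩ <;> omega

/-- the facts about the numbers of low neighbours of the types -/
theorem L6.nums (h : L6 G S) {u : V} (hu : u ∈ S) (hdu : dg G S u ≠ 6) :
    (ln G S u).card = (lt G S u 0).card + (lt G S u 1).card + (lt G S u 2).card +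
      (lt G S u 3).card + (lt G S u 4).card + (lt G S u 5).card + (lt G S u 6).card +
      (lt G S u 7).card ∧
    (ln G S u).card ≤ dg G S u ∧ 7 ≤ dg G S u ∧
    (1 ≤ (lt G S u 1).card → (ln G S u).card + 4 ≤ dg G S u) ∧
    (2 ≤ (lt G S u 1).card → dg G S u = 7 → (ln G S u).card ≤ 2) ∧
    (1 ≤ (lt G S u 4).card → (ln G S u).card + 3 ≤ dg G S u ∧ 8 ≤ dg G S u) ∧
    (1 ≤ (lt G S u 6).card → (ln G S u).card + 2 ≤ dg G S u ∧ 9 ≤ dg G S u) ∧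
    (1 ≤ (lt G S u 7).card → 10 ≤ dg G S u) := by
  have e3 := sum_ty (ln G S u) (ty G S) (fun x _ => ty_lt x) (fun _ => 1)
  rw [sum_const, nsmul_eq_mul, mul_one] at e3
  simp only [one_mul] at e3
  have hl : ll G S 6 u = (ln G S u).card := rfl
  have hge := h.cr.dg_ge hu
  refine ⟨by exact_mod_cast e3, ?_, by omega, ?_, ?_, ?_, ?_, ?_⟩
  · rw [← hl]
    exact Pool.Agent.O2.dg_mono (filter_subset _ _) u
  · intro h1
    obtain ⟨x, hx⟩ := card_pos.1 h1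
    obtain ⟨h2, h3⟩ := mem_filter.1 hx
    obtain ⟨⟨hxS, hlx⟩, hux⟩ := mem_ln.1 h2
    rcases h.cases (mem_lo.2 ⟨hxS, hlx⟩) with ⟨e, _⟩ | ⟨e, h4, h5, v, hv, hxv, htv⟩ | ⟨e, _⟩ |
      ⟨e, _⟩ | ⟨e, _⟩ | ⟨e, _⟩ | ⟨e, _⟩ | ⟨e, _⟩
    all_goals first | omega | skip
    obtain ⟨hvS, hlv⟩ := mem_lo.1 hv
    rw [← hl]
    exact h.edge_nb hxS hlx h4 hvS hlv htv hxv hu hux.symm (fun e => hdu (e ▸ hlv))
  · intro h1 h6
    obtain ⟨x, hx, x', hx', hne⟩ := one_lt_card.1 h1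
    obtain ⟨h2, h3⟩ := mem_filter.1 hx
    obtain ⟨⟨hxS, hlx⟩, hux⟩ := mem_ln.1 h2
    obtain ⟨h2', h3'⟩ := mem_filter.1 hx'
    obtain ⟨⟨hxS', hlx'⟩, hux'⟩ := mem_ln.1 h2'
    rcases h.cases (mem_lo.2 ⟨hxS, hlx⟩) with ⟨e, _⟩ | ⟨e, h4, h5, v, hv, hxv, htv⟩ | ⟨e, _⟩ |
      ⟨e, _⟩ | ⟨e, _⟩ | ⟨e, _⟩ | ⟨e, _⟩ | ⟨e, _⟩
    all_goals first | omega | skip
    rcases h.cases (mem_lo.2 ⟨hxS', hlx'⟩) with ⟨e', _⟩ |
      ⟨e', h4', h5', v', hv', hxv', htv'⟩ | ⟨e', _⟩ |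
      ⟨e', _⟩ | ⟨e', _⟩ | ⟨e', _⟩ | ⟨e', _⟩ | ⟨e', _⟩
    all_goals first | omega | skip
    obtain ⟨hvS, hlv⟩ := mem_lo.1 hv
    obtain ⟨hvS', hlv'⟩ := mem_lo.1 hv'
    rw [← hl]
    exact h.two_edges hu h6 hxS hlx h4 hvS hlv htv hxv hux.symm hxS' hlx' h4' hvS' hlv' htv'
      hxv' hux'.symm hne
  · intro h1
    obtain ⟨x, hx⟩ := card_pos.1 h1
    obtain ⟨h2, h3⟩ := mem_filter.1 hx
    obtain ⟨⟨hxS, hlx⟩, hux⟩ := mem_ln.1 h2
    rcases h.cases (mem_lo.2 ⟨hxS, hlx⟩) with ⟨e, _⟩ | ⟨e, _⟩ | ⟨e, _⟩ |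
      ⟨e, _⟩ | ⟨e, h4, v, hv, hxv, hnt⟩ | ⟨e, _⟩ | ⟨e, _⟩ | ⟨e, _⟩
    all_goals first | omega | skip
    obtain ⟨hvS, hlv⟩ := mem_lo.1 hv
    have hntu : ¬ Tw G S x u := fun h6 => hdu (by rw [tws_low hxS hu h6, hlx])
    have huv : u ≠ v := fun e => hdu (e ▸ hlv)
    have h5 := h.df_nb hxS hlx (by omega) hvS hlv hxv hnt hu hux.symm hntu huv
    have h6 := ((h.df hxS hlx (by omega) hvS hlv hxv hnt).2.2.2 u hu hux.symm hntu huv).2
    omega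
  · intro h1
    obtain ⟨x, hx⟩ := card_pos.1 h1
    obtain ⟨h2, h3⟩ := mem_filter.1 hx
    obtain ⟨⟨hxS, hlx⟩, hux⟩ := mem_ln.1 h2
    rcases h.cases (mem_lo.2 ⟨hxS, hlx⟩) with ⟨e, _⟩ | ⟨e, _⟩ | ⟨e, _⟩ |
      ⟨e, _⟩ | ⟨e, _⟩ | ⟨e, _⟩ | ⟨e, h4, v, hv, hxv, hnt⟩ | ⟨e, _⟩
    all_goals first | omega | skip
    obtain ⟨hvS, hlv⟩ := mem_lo.1 hv
    have hntu : ¬ Tw G S x u := fun h6 => hdu (by rw [tws_low hxS hu h6, hlx])
    have huv : u ≠ v := fun e => hdu (e ▸ hlv)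
    have h5 := h.df_nb hxS hlx (by omega) hvS hlv hxv hnt hu hux.symm hntu huv
    have h6 := ((h.df hxS hlx (by omega) hvS hlv hxv hnt).2.2.2 u hu hux.symm hntu huv).2
    omega
  · intro h1
    obtain ⟨x, hx⟩ := card_pos.1 h1
    obtain ⟨h2, h3⟩ := mem_filter.1 hx
    obtain ⟨⟨hxS, hlx⟩, hux⟩ := mem_ln.1 h2
    have hntu : ¬ Tw G S x u := fun h6 => hdu (by rw [tws_low hxS hu h6, hlx])
    rcases h.cases (mem_lo.2 ⟨hxS, hlx⟩) with ⟨e, _⟩ | ⟨e, _⟩ | ⟨e, _⟩ |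
      ⟨e, _⟩ | ⟨e, _⟩ | ⟨e, _⟩ | ⟨e, _⟩ | ⟨e, h4⟩
    all_goals first | omega | skip
    exact h.four hxS hlx h4 hu hux.symm hntu

/-- a neighbour of an end of a low edge under `C5` -/
theorem L6.num5 (h : L6 G S) (h5 : C5 G S) {u : V} (hu : u ∈ S) (hdu : dg G S u ≠ 6)
    (h1 : 1 ≤ (lt G S u 1).card) : 8 ≤ dg G S u := by
  obtain ⟨x, hx⟩ := card_pos.1 h1
  obtain ⟨h2, h3⟩ := mem_filter.1 hx
  obtain ⟨⟨hxS, hlx⟩, hux⟩ := mem_ln.1 h2
  rcases h.cases (mem_lo.2 ⟨hxS, hlx⟩) with ⟨e, _⟩ | ⟨e, h4, h5', v, hv, hxv, htv⟩ | ⟨e, _⟩ |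
    ⟨e, _⟩ | ⟨e, _⟩ | ⟨e, _⟩ | ⟨e, _⟩ | ⟨e, _⟩
  all_goals first | omega | skip
  obtain ⟨hvS, hlv⟩ := mem_lo.1 hv
  exact h5 x hxS hlx h4 v hvS hlv htv hxv u hu hux.symm (fun e => hdu (e ▸ hlv))

/-- first scheme: what a low vertex of a given type receives from a neighbour of degree `d` -/
def gA (d : ℕ) : ℕ → ℤ
  | 0 => 0
  | 1 => 36
  | 2 => 0
  | 3 => if 8 ≤ d then 45 else 0
  | 4 => 90
  | 5 => if 9 ≤ d then 80 else 0
  | 6 => 120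
  | _ => 90

/-- second scheme -/
def gC (d : ℕ) : ℕ → ℤ
  | 0 => -72
  | 1 => 0
  | 2 => 0
  | 3 => if 8 ≤ d then 9 else -36
  | 4 => 54
  | 5 => if 9 ≤ d then 56 else -24
  | 6 => 96
  | _ => 72

/-- the first scheme at a vertex which is not low -/
theorem L6.highA (h : L6 G S) (h5 : C5 G S) {u : V} (hu : u ∈ S) (hdu : dg G S u ≠ 6) :
    ∑ x ∈ ln G S u, gA (dg G S u) (ty G S x) ≤ 360 * ((dg G S u : ℤ) - 7) := by
  have e1 := sum_ty (ln G S u) (ty G S) (fun x _ => ty_lt x) (gA (dg G S u))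
  obtain ⟨n1, n2, n3, n4, n5, n6, n7, n8⟩ := h.nums hu hdu
  have n9 := h.num5 h5 hu hdu
  have d3 := h.dvd hu hdu (j := 3) (c := 2) (by omega)
  have d4 := h.dvd hu hdu (j := 4) (c := 2) (by omega)
  have d5 := h.dvd hu hdu (j := 5) (c := 3) (by omega)
  have d6 := h.dvd hu hdu (j := 6) (c := 3) (by omega)
  have d7 := h.dvd hu hdu (j := 7) (c := 4) (by omega)
  rw [e1]
  simp only [gA]
  change _ * ((lt G S u 0).card : ℤ) + _ * ((lt G S u 1).card : ℤ) +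
    _ * ((lt G S u 2).card : ℤ) + _ * ((lt G S u 3).card : ℤ) +
    _ * ((lt G S u 4).card : ℤ) + _ * ((lt G S u 5).card : ℤ) +
    _ * ((lt G S u 6).card : ℤ) + _ * ((lt G S u 7).card : ℤ) ≤ _
  generalize (lt G S u 0).card = c0 at *
  generalize (lt G S u 1).card = c1 at *
  generalize (lt G S u 2).card = c2 at *
  generalize (lt G S u 3).card = c3 at *
  generalize (lt G S u 4).card = c4 at *
  generalize (lt G S u 5).card = c5 at *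
  generalize (lt G S u 6).card = c6 at *
  generalize (lt G S u 7).card = c7 at *
  generalize (ln G S u).card = l at *
  generalize dg G S u = d at *
  clear e1
  obtain ⟨p3, rfl⟩ := d3
  obtain ⟨p4, rfl⟩ := d4
  obtain ⟨p5, rfl⟩ := d5
  obtain ⟨p6, rfl⟩ := d6
  obtain ⟨p7, rfl⟩ := d7
  rcases (by omega : d = 7 ∨ d = 8 ∨ d = 9 ∨ 10 ≤ d) with h6 | h7 | h8 | h9
  · subst h6
    norm_num
    omega
  · subst h7
    norm_num
    push_cast
    have hp7 : p7 = 0 := by omega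
    have hp6 : p6 = 0 := by omega
    subst hp7
    subst hp6
    rcases (by omega : p4 = 0 ∨ p4 = 1 ∨ p4 = 2) with hp | hp | hp <;> subst hp <;> omega
  · subst h8
    norm_num
    push_cast
    have hp7 : p7 = 0 := by omega
    subst hp7
    rcases (by omega : p6 = 0 ∨ p6 = 1 ∨ p6 = 2) with hp | hp | hp <;> subst hp <;>
    rcases (by omega : p5 = 0 ∨ p5 = 1 ∨ p5 = 2 ∨ p5 = 3) with hq | hq | hq | hq <;> subst hq <;>
    rcases (by omega : p4 = 0 ∨ p4 = 1 ∨ p4 = 2 ∨ p4 = 3) with hr | hr | hr | hr <;> subst hr <;>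
      omega
  · rw [if_pos (by omega), if_pos (by omega)]
    push_cast
    rcases (by omega : p6 = 0 ∨ 1 ≤ p6) with hp | hp
    · subst hp
      omega
    · have := n7 (by omega)
      omega

end Pool.Agent.OX46.Six
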