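import Pool.Agent.Lib_helper46.OX.Ty

/-!
# Five colours: how often a low vertex is chosen
-/

set_option autoImplicit false
set_option linter.unusedSectionVars false
set_option linter.unusedVariables false

open scoped Classical
open Finset
open Pool.Agent.O2 (PC Cb CrOn pr ms dg nd)
open Pool.Agent.O3 (con hit Clq)
open Pool.Agent.OW28 (NoCE)
open Pool.Agent.OW

namespace Pool.Agent.OX46

variable {V : Type} {G : SimpleGraph V} {S : Finset V}

/-- the number of sets that contain `x` -/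
noncomputable def ia (G : SimpleGraph V) (S : Finset V) (o : V → ℕ) (x : V) : ℤ :=
  (if x ∈ A1 G S o then 1 else 0) + (if x ∈ A2 G S o then 1 else 0)

/-- the same number from the type -/
def iC : ℕ → ℤ
  | 0 => 2
  | 1 => 1
  | 2 => 1
  | 3 => 1
  | 4 => 1
  | 5 => 0
  | 6 => 1
  | _ => 0

theorem tws_card_tw {x y : V} (hx : x ∈ S) (hy : y ∈ S) (h : Tw G S x y) :
    (tws G S y).card = (tws G S x).card := by
  have h1 := clu_eq hx hy (Or.inr h)
  have h2 := clu_card (G := G) hx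
  have h3 := clu_card (G := G) hy
  rw [h1] at h2
  omega

theorem not_both {o : V → ℕ} {x v : V} (hv : v ∈ lo G S 5) (hxv : G.Adj x v) :
    ¬ (x ∈ A1 G S o ∧ x ∈ A2 G S o) := by
  rintro ⟨h1, h2⟩
  have h3 := (mem_filter.1 h1).2 v hv hxv
  have h4 := (mem_filter.1 h2).2 v hv hxv
  omega

/-- exactly one of the two sets contains `x` if `v` is the only low neighbour -/
theorem one_of {o : V → ℕ} {x v : V} (hx : x ∈ lo G S 5) (hv : v ∈ lo G S 5) (hxv : G.Adj x v)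
    (hne : oo G S o x ≠ oo G S o v) (hu : ∀ w ∈ lo G S 5, G.Adj x w → w = v) :
    ia G S o x = 1 := by
  unfold ia
  rcases Nat.lt_or_gt_of_ne hne with h1 | h1
  · have h2 : x ∈ A1 G S o := mem_filter.2 ⟨hx, fun w hw hxw => by rw [hu w hw hxw]; exact h1⟩
    have h3 : x ∉ A2 G S o := fun h3 => not_both hv hxv ⟨h2, h3⟩
    rw [if_pos h2, if_neg h3]
    rfl
  · have h2 : x ∈ A2 G S o := mem_filter.2 ⟨hx, fun w hw hxw => by rw [hu w hw hxw]; exact h1⟩
    have h3 : x ∉ A1 G S o := fun h3 => not_both hv hxv ⟨h3, h2⟩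
    rw [if_pos h2, if_neg h3]
    rfl

theorem oo_ne {o : V → ℕ} (ho : ∀ a ∈ S, ∀ b ∈ S, o a = o b → a = b) {x v : V}
    (hx : x ∈ S) (hv : v ∈ S) (hxv : x ≠ v) (h1 : ¬ isF G S x) (h2 : ¬ isF G S v) :
    oo G S o x ≠ oo G S o v := by
  unfold oo
  rw [if_neg h1, if_neg h2]
  intro h3
  exact hxv (ho x hx v hv (by omega))

theorem L5.df_isF (h : L5 G S) {x v : V} (hx : x ∈ lo G S 5) (htx : (tws G S x).card = 1)
    (hv : v ∈ lo G S 5) (hxv : G.Adj x v) (hnt : ¬ Tw G S x v) : isF G S v := by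
  obtain ⟨hxS, hlx⟩ := mem_lo.1 hx
  obtain ⟨hvS, hlv⟩ := mem_lo.1 hv
  exact ⟨(h.df hxS hlx htx hvS hlv hxv hnt).2.1, x, hx, hxv.symm, htx⟩

theorem L5.ind (h : L5 G S) {o : V → ℕ} (ho : ∀ a ∈ S, ∀ b ∈ S, o a = o b → a = b) {x : V}
    (hx : x ∈ lo G S 5) : ia G S o x = iC (ty G S o x) := by
  obtain ⟨hxS, hlx⟩ := mem_lo.1 hx
  rcases h.cases o hx with ⟨e, h1, h2⟩ | ⟨e, h1, h2, v, hv, hxv, htv⟩ | ⟨e, h1, h2⟩ |
    ⟨e, h1, h2⟩ | ⟨e, h1, h2, v, hv, hxv, hnt⟩ | ⟨e, h1, h2, v, hv, hxv, hnt⟩ |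
    ⟨e, h1, h2⟩ | ⟨e, h1, h2⟩ <;> rw [e]
  · have h3 : x ∈ A1 G S o := mem_filter.2 ⟨hx, fun w hw hxw => absurd hxw (h2 w hw)⟩
    have h4 : x ∈ A2 G S o := mem_filter.2 ⟨hx, fun w hw hxw => absurd hxw (h2 w hw)⟩
    unfold ia
    rw [if_pos h3, if_pos h4]
    rfl
  · obtain ⟨hvS, hlv⟩ := mem_lo.1 hv
    have h3 := (h.edge hxS hlx h1 hvS hlv htv hxv).2
    have h4 := (h.edge hvS hlv htv hxS hlx h1 hxv.symm).2
    apply one_of hx hv hxv
    · apply oo_ne ho hxS hvS hxv.ne h2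
      rintro ⟨-, w, hw, hvw, htw⟩
      by_cases hwx : w = x
      · rw [hwx, h1] at htw
        omega
      · exact h4 w (mem_lo.1 hw).1 hvw hwx (mem_lo.1 hw).2
    · intro w hw hxw
      by_contra hwv
      exact h3 w (mem_lo.1 hw).1 hxw hwv (mem_lo.1 hw).2
  · obtain ⟨-, v, hv, hxv, htv⟩ := h2
    obtain ⟨hvS, hlv⟩ := mem_lo.1 hv
    have h2' : isF G S x := ⟨h1, v, hv, hxv, htv⟩
    have h3 : x ∈ A1 G S o := by
      refine mem_filter.2 ⟨hx, fun w hw hxw => ?_⟩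
      have h4 := h.att hxS hlx h1 hvS hlv htv hxv w (mem_lo.1 hw).1 (mem_lo.1 hw).2 hxw
      have h5 : ¬ isF G S w := fun h6 => by
        have := h6.1
        omega
      unfold oo
      rw [if_pos h2', if_neg h5]
      omega
    have h4 : x ∉ A2 G S o := fun h4 => not_both hv hxv ⟨h3, h4⟩
    unfold ia
    rw [if_pos h3, if_neg h4]
    rfl
  · obtain ⟨y, hy⟩ := card_eq_one.1 h1
    have hym : y ∈ tws G S x := by rw [hy]; exact mem_singleton_self y
    obtain ⟨hyS, hyx, hty⟩ := mem_tws.1 hym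
    have hly : y ∈ lo G S 5 := mem_lo.2 ⟨hyS, by rw [tws_low hxS hyS hty, hlx]⟩
    apply one_of hx hly hty.1
    · apply oo_ne ho hxS hyS hty.1.ne
      · intro h3
        have := h3.1
        omega
      · intro h3
        have h4 := h3.1
        rw [tws_card_tw hxS hyS hty] at h4
        omega
    · intro w hw hxw
      have h3 : w ∈ tws G S x := mem_tws.2 ⟨(mem_lo.1 hw).1, hxw.ne', h2 w hw hxw⟩
      rw [hy] at h3
      exact mem_singleton.1 h3
  · have h3 : x ∉ A1 G S o := fun h3 => not_both hv hxv ⟨h3, h2⟩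
    unfold ia
    rw [if_pos h2, if_neg h3]
    rfl
  · have h3 : x ∉ A1 G S o := by
      intro h3
      have h4 := (mem_filter.1 h3).2 v hv hxv
      have h5 := h.df_isF hx h1 hv hxv hnt
      unfold oo at h4
      rw [if_pos h5] at h4
      omega
    unfold ia
    rw [if_neg h2, if_neg h3]
    rfl
  · obtain ⟨y, hym⟩ : (tws G S x).Nonempty := card_pos.1 (by omega)
    obtain ⟨hyS, hyx, hty⟩ := mem_tws.1 hym
    have hly : y ∈ lo G S 5 := mem_lo.2 ⟨hyS, by rw [tws_low hxS hyS hty, hlx]⟩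
    have h3 := not_both (o := o) hly hty.1
    unfold ia
    rcases h2 with h2 | h2
    · have h4 : x ∉ A2 G S o := fun h4 => h3 ⟨h2, h4⟩
      rw [if_pos h2, if_neg h4]
      rfl
    · have h4 : x ∉ A1 G S o := fun h4 => h3 ⟨h4, h2⟩
      rw [if_pos h2, if_neg h4]
      rfl
  · have h3 : x ∉ A1 G S o := fun h3 => h2 (Or.inl h3)
    have h4 : x ∉ A2 G S o := fun h4 => h2 (Or.inr h4)
    unfold ia
    rw [if_neg h3, if_neg h4]
    rfl

/-- the sets and their common count -/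
theorem L5.cards (h : L5 G S) {o : V → ℕ} (ho : ∀ a ∈ S, ∀ b ∈ S, o a = o b → a = b) :
    ((A1 G S o).card : ℤ) + (A2 G S o).card = ∑ x ∈ lo G S 5, iC (ty G S o x) := by
  have h1 : ∑ x ∈ lo G S 5, iC (ty G S o x) = ∑ x ∈ lo G S 5, ia G S o x :=
    sum_congr rfl fun x hx => (h.ind ho hx).symm
  rw [h1]
  unfold ia
  rw [sum_add_distrib]
  have key : ∀ A : Finset V, A ⊆ lo G S 5 →
      ∑ x ∈ lo G S 5, (if x ∈ A then (1 : ℤ) else 0) = A.card := by
    intro A hA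
    rw [← sum_filter]
    have h2 : (lo G S 5).filter (fun x => x ∈ A) = A := by
      ext x
      rw [mem_filter]
      exact ⟨fun h3 => h3.2, fun h3 => ⟨hA h3, h3⟩⟩
    rw [h2]
    simp
  rw [key (A1 G S o) (filter_subset _ _), key (A2 G S o) (filter_subset _ _)]

/-- the same at a vertex -/
theorem L5.nbs (h : L5 G S) {o : V → ℕ} (ho : ∀ a ∈ S, ∀ b ∈ S, o a = o b → a = b) (u : V) :
    (dg G (A1 G S o) u : ℤ) + dg G (A2 G S o) u =
      ∑ x ∈ (lo G S 5).filter (fun x => G.Adj u x), iC (ty G S o x) := by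
  have h1 : ∑ x ∈ (lo G S 5).filter (fun x => G.Adj u x), iC (ty G S o x) =
      ∑ x ∈ (lo G S 5).filter (fun x => G.Adj u x), ia G S o x :=
    sum_congr rfl fun x hx => (h.ind ho (mem_filter.1 hx).1).symm
  rw [h1]
  unfold ia
  rw [sum_add_distrib]
  have key : ∀ A : Finset V, A ⊆ lo G S 5 →
      ∑ x ∈ (lo G S 5).filter (fun x => G.Adj u x), (if x ∈ A then (1 : ℤ) else 0) =
        dg G A u := by
    intro A hA
    rw [← sum_filter]
    have h2 : ((lo G S 5).filter (fun x => G.Adj u x)).filter (fun x => x ∈ A) =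
        A.filter fun x => G.Adj u x := by
      ext x
      simp only [mem_filter]
      exact ⟨fun h3 => ⟨h3.2, h3.1.2⟩, fun h3 => ⟨⟨hA h3.1, h3.2⟩, h3.1⟩⟩
    rw [h2]
    simp
    rfl
  rw [key (A1 G S o) (filter_subset _ _), key (A2 G S o) (filter_subset _ _)]

end Pool.Agent.OX46
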