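import Pool.Agent.Lib_helper46.OW.End
import Pool.Agent.Lib_helper46.OW.Sig
import Pool.Agent.Lib_helper28.OW.S4a

/-!
# Six colours: the vertices of degree six

The structure of the graph of the low vertices for `K = 6`.
-/

set_option autoImplicit false
set_option linter.unusedSectionVars false
set_option linter.unusedVariables false

open scoped Classical
open Finset
open Pool.Agent.O2 (PC Cb CrOn pr ms dg nd)
open Pool.Agent.O3 (con hit Clq)
open Pool.Agent.OW28 (NoCE)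
open Pool.Agent.OW

namespace Pool.Agent.OX46.Six

variable {V : Type}

/-- the structure of the low vertices (degree `6`) -/
structure L6 (G : SimpleGraph V) (S : Finset V) : Prop where
  cr : CrOn G S 6
  c1 : ∀ x ∈ S, dg G S x = 6 → ∀ v ∈ S, G.Adj x v → ¬ Tw G S x v →
    dg G S v ≤ 6 + (tws G S x).card →
    (dg G S v = 6 → (tws G S v).card ≤ (tws G S x).card) → Clq G (cn G S v x)
  c2 : ∀ x ∈ S, dg G S x = 6 → ∀ v ∈ S, G.Adj x v → Clq G (cn G S v x) →
    ∀ y ∈ S, G.Adj x y → y ≠ v → dg G S y = 6 → Tw G S x y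
  c3 : ∀ x ∈ S, dg G S x = 6 → ∀ v ∈ S, G.Adj x v → ∀ v' ∈ S, G.Adj x v' → v ≠ v' →
    Clq G (cn G S v x) → Clq G (cn G S v' x) → False
  c4 : ∀ x ∈ S, dg G S x = 6 → 1 ≤ (tws G S x).card → ∀ v ∈ S, G.Adj x v →
    Clq G (cn G S v x) → (tws G S x).card ≤ 2
  c4' : ∀ x ∈ S, dg G S x = 6 → (tws G S x).card ≤ 3
  nce : NoCE G S 6

/-- the neighbours of the ends of an edge between two low vertices without twins have degree
at least `8` -/
def C5 (G : SimpleGraph V) (S : Finset V) : Prop :=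
  ∀ x ∈ S, dg G S x = 6 → (tws G S x).card = 0 → ∀ v ∈ S, dg G S v = 6 →
    (tws G S v).card = 0 → G.Adj x v → ∀ u ∈ S, G.Adj x u → u ≠ v → 8 ≤ dg G S u

section facts

variable {G : SimpleGraph V} {S : Finset V}

theorem tw_pos {x y : V} (hy : y ∈ S) (h : Tw G S x y) : 1 ≤ (tws G S x).card :=
  card_pos.2 ⟨y, mem_tws.2 ⟨hy, h.1.ne', h⟩⟩

/-- two low adjacent vertices which are not twins -/
theorem L6.mut (h : L6 G S) {x v : V} (hx : x ∈ S) (hlx : dg G S x = 6) (hv : v ∈ S)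
    (hlv : dg G S v = 6) (hxv : G.Adj x v) (hnt : ¬ Tw G S x v)
    (hle : (tws G S v).card ≤ (tws G S x).card) :
    Clq G (cn G S v x) ∧ (tws G S v).card = 0 := by
  have h1 := h.c1 x hx hlx v hv hxv hnt (by omega) (fun _ => hle)
  refine ⟨h1, ?_⟩
  by_contra h2
  obtain ⟨v', hv'⟩ := card_pos.1 (Nat.pos_of_ne_zero h2)
  obtain ⟨hv'S, hv'v, hvv'⟩ := mem_tws.1 hv'
  have hxv' : x ≠ v' := fun e => hnt (e ▸ hvv'.symm)
  have h3 : G.Adj x v' := ((hvv'.2 x hx hxv.ne hxv').1 hxv.symm).symm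
  have h4 := h.c2 x hx hlx v hv hxv h1 v' hv'S h3 hv'v (by rw [tws_low hv hv'S hvv', hlv])
  exact hnt (tw_trans hx hv'S hv hxv.ne h4 hvv'.symm)

/-- a neighbour of small degree which is not a twin, of a vertex with twins or a neighbour
which is not low -/
theorem L6.nexc (h : L6 G S) {x v : V} (hx : x ∈ S) (hlx : dg G S x = 6) (hv : v ∈ S)
    (hxv : G.Adj x v) (hnt : ¬ Tw G S x v) (hhv : dg G S v ≠ 6)
    (hc : ¬ Clq G (cn G S v x)) : 7 + (tws G S x).card ≤ dg G S v := by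
  by_contra hlt
  exact hc (h.c1 x hx hlx v hv hxv hnt (by omega) (fun h1 => absurd h1 hhv))

/-- the neighbours of a cluster of four -/
theorem L6.four (h : L6 G S) {x v : V} (hx : x ∈ S) (hlx : dg G S x = 6)
    (ht : (tws G S x).card = 3) (hv : v ∈ S) (hxv : G.Adj x v) (hnt : ¬ Tw G S x v) :
    10 ≤ dg G S v := by
  by_contra hlt
  have h1 := h.c1 x hx hlx v hv hxv hnt (by omega) (fun hlv => by
    have := h.c4' v hv hlv
    omega)
  have h2 := h.c4 x hx hlx (by omega) v hv hxv h1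
  omega

/-- a low vertex without twins adjacent to a low vertex without twins -/
theorem L6.edge (h : L6 G S) {x v : V} (hx : x ∈ S) (hlx : dg G S x = 6)
    (htx : (tws G S x).card = 0) (hv : v ∈ S) (hlv : dg G S v = 6) (htv : (tws G S v).card = 0)
    (hxv : G.Adj x v) : Clq G (cn G S v x) ∧ ∀ y ∈ S, G.Adj x y → y ≠ v → dg G S y ≠ 6 := by
  have hnt : ¬ Tw G S x v := fun h1 => by
    have := tw_pos hv h1
    omega
  have h1 := (h.mut hx hlx hv hlv hxv hnt (by omega)).1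
  refine ⟨h1, fun y hy hxy hyv hly => ?_⟩
  have h2 := tw_pos hy (h.c2 x hx hlx v hv hxv h1 y hy hxy hyv hly)
  omega

/-- a low vertex without twins adjacent to a low vertex with a twin -/
theorem L6.att (h : L6 G S) {x v : V} (hx : x ∈ S) (hlx : dg G S x = 6)
    (htx : (tws G S x).card = 0) (hv : v ∈ S) (hlv : dg G S v = 6)
    (htv : 1 ≤ (tws G S v).card) (hxv : G.Adj x v) :
    ∀ w ∈ S, dg G S w = 6 → G.Adj x w → 1 ≤ (tws G S w).card := by
  intro w hw hlw hxw
  by_contra hne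
  have h2 : (tws G S w).card = 0 := by omega
  by_cases hvw : v = w
  · rw [hvw] at htv
    omega
  · exact (h.edge hx hlx htx hw hlw h2 hxw).2 v hv hxv hvw hlv

/-- a low vertex with twins and a low neighbour which is not its twin -/
theorem L6.df (h : L6 G S) {x v : V} (hx : x ∈ S) (hlx : dg G S x = 6)
    (htx : 1 ≤ (tws G S x).card) (hv : v ∈ S) (hlv : dg G S v = 6) (hxv : G.Adj x v)
    (hnt : ¬ Tw G S x v) : Clq G (cn G S v x) ∧ (tws G S v).card = 0 ∧
    (tws G S x).card ≤ 2 ∧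
    ∀ y ∈ S, G.Adj x y → ¬ Tw G S x y → y ≠ v →
      dg G S y ≠ 6 ∧ 7 + (tws G S x).card ≤ dg G S y := by
  have h2 : (tws G S v).card ≤ (tws G S x).card := by
    by_contra hlt
    have h3 := (h.mut hv hlv hx hlx hxv.symm (fun h4 => hnt h4.symm) (by omega)).2
    omega
  obtain ⟨h3, h4⟩ := h.mut hx hlx hv hlv hxv hnt h2
  refine ⟨h3, h4, h.c4 x hx hlx htx v hv hxv h3, fun y hy hxy hnty hyv => ?_⟩
  have h5 : dg G S y ≠ 6 := fun hly => hnty (h.c2 x hx hlx v hv hxv h3 y hy hxy hyv hly)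
  refine ⟨h5, h.nexc hx hlx hy hxy hnty h5 fun h6 => ?_⟩
  exact h.c3 x hx hlx v hv hxv y hy hxy (Ne.symm hyv) h3 h6

/-- a vertex of a clique of vertices which are not low -/
theorem hi_nb {u : V} {Y : Finset V} (hY : Y ⊆ S) (hu : u ∈ Y) (hh : ∀ y ∈ Y, dg G S y ≠ 6)
    (hc : Clq G Y) : ll G S 6 u + (Y.card - 1) ≤ dg G S u := by
  have h3 : dg G (Y.erase u) u = Y.card - 1 := by
    unfold dg
    rw [filter_true_of_mem, card_erase_of_mem hu]
    intro z hz
    obtain ⟨hzy, hz'⟩ := mem_erase.1 hz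
    exact hc u hu z hz' (Ne.symm hzy)
  have h4 : Disjoint (lo G S 6) (Y.erase u) := by
    rw [disjoint_left]
    intro z hz hz'
    exact hh z (mem_of_mem_erase hz') (mem_filter.1 hz).2
  have h5 : dg G (lo G S 6 ∪ Y.erase u) u ≤ dg G S u := by
    apply Pool.Agent.O2.dg_mono
    intro z hz
    rcases mem_union.1 hz with hz | hz
    · exact (mem_filter.1 hz).1
    · exact hY (mem_of_mem_erase hz)
  rw [Pool.Agent.O2.dg_union h4, h3] at h5
  exact h5

/-- the neighbours of `x` other than `v` -/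
noncomputable def nbv (G : SimpleGraph V) (S : Finset V) (x v : V) : Finset V :=
  (S.filter fun y => G.Adj x y).erase v

theorem mem_nbv {x v y : V} : y ∈ nbv G S x v ↔ y ≠ v ∧ y ∈ S ∧ G.Adj x y := by
  unfold nbv
  rw [mem_erase, mem_filter]

theorem nbv_card {x v : V} (hv : v ∈ S) (hxv : G.Adj x v) :
    (nbv G S x v).card + 1 = dg G S x := by
  have h2 : 0 < (S.filter fun y => G.Adj x y).card := card_pos.2 ⟨v, mem_filter.2 ⟨hv, hxv⟩⟩
  unfold nbv
  rw [card_erase_of_mem (mem_filter.2 ⟨hv, hxv⟩)]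
  change (S.filter fun y => G.Adj x y).card - 1 + 1 = (S.filter fun y => G.Adj x y).card
  omega

theorem nbv_clq {x v : V} (hc : Clq G (cn G S v x)) : Clq G (nbv G S x v) := by
  intro a ha b hb hab
  exact hc a (mem_cn.2 (Or.inr (mem_nbv.1 ha))) b (mem_cn.2 (Or.inr (mem_nbv.1 hb))) hab

/-- a neighbour of an end of a low edge -/
theorem L6.edge_nb (h : L6 G S) {x v u : V} (hx : x ∈ S) (hlx : dg G S x = 6)
    (htx : (tws G S x).card = 0) (hv : v ∈ S) (hlv : dg G S v = 6) (htv : (tws G S v).card = 0)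
    (hxv : G.Adj x v) (hu : u ∈ S) (hxu : G.Adj x u) (huv : u ≠ v) :
    ll G S 6 u + 4 ≤ dg G S u := by
  obtain ⟨h1, h2⟩ := h.edge hx hlx htx hv hlv htv hxv
  have h3 := hi_nb (G := G) (S := S) (u := u) (Y := nbv G S x v)
    (fun y hy => (mem_nbv.1 hy).2.1) (mem_nbv.2 ⟨huv, hu, hxu⟩)
    (fun y hy => h2 y (mem_nbv.1 hy).2.1 (mem_nbv.1 hy).2.2 (mem_nbv.1 hy).1) (nbv_clq h1)
  have h4 := nbv_card (G := G) hv hxv
  omega

/-- a neighbour of a cluster with a common low neighbour -/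
theorem L6.df_nb (h : L6 G S) {x v u : V} (hx : x ∈ S) (hlx : dg G S x = 6)
    (htx : 1 ≤ (tws G S x).card) (hv : v ∈ S) (hlv : dg G S v = 6) (hxv : G.Adj x v)
    (hnt : ¬ Tw G S x v) (hu : u ∈ S) (hxu : G.Adj x u) (hntu : ¬ Tw G S x u) (huv : u ≠ v) :
    ll G S 6 u + 4 ≤ dg G S u + (tws G S x).card := by
  obtain ⟨h1, h2, h2', h3⟩ := h.df hx hlx htx hv hlv hxv hnt
  have hY : ((ou G S x).erase v).card + 1 + (tws G S x).card = 6 := by
    rw [card_erase_of_mem (mem_ou.2 ⟨hv, hxv, hnt⟩)]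
    have := ou_card (G := G) (S := S) (x := x)
    have h2 : 0 < (ou G S x).card := card_pos.2 ⟨v, mem_ou.2 ⟨hv, hxv, hnt⟩⟩
    omega
  have h4 := hi_nb (G := G) (S := S) (u := u) (Y := (ou G S x).erase v)
    (fun y hy => (mem_ou.1 (mem_of_mem_erase hy)).1)
    (mem_erase.2 ⟨huv, mem_ou.2 ⟨hu, hxu, hntu⟩⟩)
    (fun y hy => by
      obtain ⟨h5, h6⟩ := mem_erase.1 hy
      obtain ⟨h7, h8, h9⟩ := mem_ou.1 h6
      exact (h3 y h7 h8 h9 h5).1)
    (fun a ha b hb hab => by
      obtain ⟨h5, h6⟩ := mem_erase.1 ha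
      obtain ⟨h7, h8, h9⟩ := mem_ou.1 h6
      obtain ⟨h5', h6'⟩ := mem_erase.1 hb
      obtain ⟨h7', h8', h9'⟩ := mem_ou.1 h6'
      exact h1 a (mem_cn.2 (Or.inr ⟨h5, h7, h8⟩)) b (mem_cn.2 (Or.inr ⟨h5', h7', h8'⟩)) hab)
  omega

/-- a vertex of degree seven adjacent to ends of two low edges has at most two low neighbours -/
theorem L6.two_edges (h : L6 G S) {u x v x' v' : V} (hu : u ∈ S) (hdu : dg G S u = 7)
    (hx : x ∈ S) (hlx : dg G S x = 6) (htx : (tws G S x).card = 0) (hv : v ∈ S)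
    (hlv : dg G S v = 6) (htv : (tws G S v).card = 0) (hxv : G.Adj x v) (hxu : G.Adj x u)
    (hx' : x' ∈ S) (hlx' : dg G S x' = 6) (htx' : (tws G S x').card = 0) (hv' : v' ∈ S)
    (hlv' : dg G S v' = 6) (htv' : (tws G S v').card = 0) (hxv' : G.Adj x' v')
    (hxu' : G.Adj x' u) (hne : x ≠ x') : ll G S 6 u ≤ 2 := by
  have huv : u ≠ v := fun e => by rw [e, hlv] at hdu; omega
  have huv' : u ≠ v' := fun e => by rw [e, hlv'] at hdu; omega
  have hl := h.edge_nb hx hlx htx hv hlv htv hxv hu hxu huv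
  by_contra hcon
  have hl3 : ll G S 6 u = 3 := by omega
  -- the neighbours of `u` which are not low
  set H := (S.filter fun y => G.Adj u y) \ lo G S 6 with hH
  have hHc : H.card = 4 := by
    have h1 : ((S.filter fun y => G.Adj u y) ∩ lo G S 6).card = 3 := by
      rw [← hl3]
      unfold ll dg
      congr 1
      ext y
      simp only [mem_inter, mem_filter]
      constructor
      · rintro ⟨⟨h1, h2⟩, h3⟩
        exact ⟨h3, h2⟩
      · rintro ⟨h1, h2⟩
        exact ⟨⟨(mem_filter.1 h1).1, h2⟩, h1⟩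
    have h2 : H.card + 3 = (S.filter fun y => G.Adj u y).card := by
      rw [hH, ← h1]
      exact card_sdiff_add_card_inter _ _
    have h3 : (S.filter fun y => G.Adj u y).card = 7 := hdu
    omega
  have key : ∀ {x v : V}, x ∈ S → dg G S x = 6 → (tws G S x).card = 0 → v ∈ S →
      dg G S v = 6 → (tws G S v).card = 0 → G.Adj x v → G.Adj x u → u ≠ v →
      (nbv G S x v).erase u = H := by
    intro x v hx hlx htx hv hlv htv hxv hxu huv
    obtain ⟨h1, h2⟩ := h.edge hx hlx htx hv hlv htv hxv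
    have hum : u ∈ nbv G S x v := mem_nbv.2 ⟨huv, hu, hxu⟩
    apply eq_of_subset_of_card_le
    · intro y hy
      obtain ⟨h3, h4⟩ := mem_erase.1 hy
      obtain ⟨h5, h6, h7⟩ := mem_nbv.1 h4
      refine mem_sdiff.2 ⟨mem_filter.2 ⟨h6, nbv_clq h1 u hum y h4 (Ne.symm h3)⟩, fun h8 => ?_⟩
      exact h2 y h6 h7 h5 (mem_filter.1 h8).2
    · rw [hHc, card_erase_of_mem hum]
      have := nbv_card (G := G) hv hxv
      omega
  have k1 := key hx hlx htx hv hlv htv hxv hxu huv
  have k2 := key hx' hlx' htx' hv' hlv' htv' hxv' hxu' huv'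
  obtain ⟨h1, h2⟩ := h.edge hx hlx htx hv hlv htv hxv
  have hT : cn G S v x ⊆ S := by
    intro y hy
    rcases mem_cn.1 hy with rfl | h3
    · exact hx
    · exact h3.2.1
  have hx'T : x' ∉ cn G S v x := by
    intro h3
    rcases mem_cn.1 h3 with h4 | ⟨h4, h5, h6⟩
    · exact hne h4.symm
    · exact h2 x' h5 h6 h4 hlx'
  have h3 := h.nce _ hT h1 ((cn_card hv hxv).trans hlx) x' hx' hx'T
  have h4 : ((cn G S v x).filter fun t => ¬ G.Adj x' t) ⊆ {x} := by
    intro t ht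
    obtain ⟨h5, h6⟩ := mem_filter.1 ht
    rw [mem_singleton]
    by_contra htx
    rcases mem_cn.1 h5 with h7 | ⟨h7, h8, h9⟩
    · exact htx h7
    · by_cases htu : t = u
      · rw [htu] at h6
        exact h6 hxu'
      · have h10 : t ∈ H := by
          rw [← k1]
          exact mem_erase.2 ⟨htu, mem_nbv.2 ⟨h7, h8, h9⟩⟩
        rw [← k2] at h10
        exact h6 (mem_nbv.1 (mem_of_mem_erase h10)).2.2
  have h5 := card_le_card h4
  rw [card_singleton] at h5
  omega

end facts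

end Pool.Agent.OX46.Six
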