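import Pool.Agent.Lib_helper46.OX.Hc6

/-!
# Six colours: the low vertices, summation
-/

set_option autoImplicit false
set_option linter.unusedSectionVars false
set_option linter.unusedVariables false

open scoped Classical
open Finset
open Pool.Agent.O2 (PC Cb CrOn pr ms dg nd)
open Pool.Agent.O3 (con hit Clq)
open Pool.Agent.OW28 (NoCE)
open Pool.Agent.OW

namespace Pool.Agent.OX46.Six

variable {V : Type} {G : SimpleGraph V} {S : Finset V}

/-- the neighbours which are not low -/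
noncomputable def hn (G : SimpleGraph V) (S : Finset V) (x : V) : Finset V :=
  (S.filter fun u => dg G S u ≠ 6).filter fun u => G.Adj x u

theorem mem_hn {x u : V} : u ∈ hn G S x ↔ (u ∈ S ∧ dg G S u ≠ 6) ∧ G.Adj x u := by
  unfold hn
  rw [mem_filter, mem_filter]

theorem hn_card (x : V) : (hn G S x).card + (ln G S x).card = dg G S x := by
  have h1 : Disjoint (hn G S x) (ln G S x) := by
    rw [disjoint_left]
    intro u hu hu'
    exact (mem_hn.1 hu).1.2 (mem_ln.1 hu').1.2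
  rw [← card_union_of_disjoint h1]
  unfold dg
  congr 1
  ext u
  rw [mem_union, mem_hn, mem_ln, mem_filter]
  constructor
  · rintro (⟨⟨h1, h2⟩, h3⟩ | ⟨⟨h1, h2⟩, h3⟩)
    · exact ⟨h1, h3⟩
    · exact ⟨h1, h3⟩
  · rintro ⟨h1, h2⟩
    by_cases h3 : dg G S u = 6
    · exact Or.inr ⟨⟨h1, h3⟩, h2⟩
    · exact Or.inl ⟨⟨h1, h3⟩, h2⟩

/-- the number of high neighbours if all low neighbours are twins -/
theorem hn_all {x : V} (hx : x ∈ lo G S 6) (h2 : ∀ v ∈ lo G S 6, G.Adj x v → Tw G S x v) :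
    (hn G S x).card + (tws G S x).card = 6 := by
  obtain ⟨hxS, hlx⟩ := mem_lo.1 hx
  have hc := hn_card (G := G) (S := S) x
  have h6 : ln G S x = tws G S x := by
    ext w
    rw [mem_ln, mem_tws]
    constructor
    · rintro ⟨h7, h9⟩
      exact ⟨h7.1, h9.ne', h2 w (mem_lo.2 h7) h9⟩
    · rintro ⟨h7, h8, h9⟩
      exact ⟨⟨h7, by rw [tws_low hxS h7 h9, hlx]⟩, h9.1⟩
  rw [h6, hlx] at hc
  exact hc

/-- the number of high neighbours of a vertex of a linked cluster -/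
theorem L6.hn_df (h : L6 G S) {x v : V} (hx : x ∈ lo G S 6) (htx : 1 ≤ (tws G S x).card)
    (hv : v ∈ lo G S 6) (hxv : G.Adj x v) (hnt : ¬ Tw G S x v) :
    (hn G S x).card + (tws G S x).card = 5 := by
  obtain ⟨hxS, hlx⟩ := mem_lo.1 hx
  obtain ⟨hvS, hlv⟩ := mem_lo.1 hv
  have hc := hn_card (G := G) (S := S) x
  have h6 : ln G S x = insert v (tws G S x) := by
    ext w
    rw [mem_ln, mem_insert, mem_tws]
    constructor
    · rintro ⟨h7, h9⟩
      by_cases hwv : w = v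
      · exact Or.inl hwv
      · right
        refine ⟨h7.1, h9.ne', ?_⟩
        by_contra h10
        exact ((h.df hxS hlx htx hvS hlv hxv hnt).2.2.2 w h7.1 h9 h10 hwv).1 h7.2
    · rintro (rfl | ⟨h7, h8, h9⟩)
      · exact ⟨⟨hvS, hlv⟩, hxv⟩
      · exact ⟨⟨h7, by rw [tws_low hxS h7 h9, hlx]⟩, h9.1⟩
  rw [h6, hlx, card_insert_of_notMem (fun h7 => hnt (mem_tws.1 h7).2.2)] at hc
  omega

/-- at most one high neighbour of `x` has small degree -/
theorem L6.few (h : L6 G S) {x : V} (hx : x ∈ lo G S 6) :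
    ((hn G S x).filter fun u => ¬ 7 + (tws G S x).card ≤ dg G S u).card ≤ 1 := by
  obtain ⟨hxS, hlx⟩ := mem_lo.1 hx
  rw [card_le_one]
  intro a ha b hb
  obtain ⟨h8, h9⟩ := mem_filter.1 ha
  obtain ⟨h10, h11⟩ := mem_filter.1 hb
  obtain ⟨⟨h12, h13⟩, h14⟩ := mem_hn.1 h8
  obtain ⟨⟨h15, h16⟩, h17⟩ := mem_hn.1 h10
  have hnt : ∀ u ∈ hn G S x, ¬ Tw G S x u := fun u hu h7 =>
    (mem_hn.1 hu).1.2 (by rw [tws_low hxS (mem_hn.1 hu).1.1 h7, hlx])
  by_contra hab
  exact h.c3 x hxS hlx a h12 h14 b h15 h17 hab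
    (h.c1 x hxS hlx a h12 h14 (hnt a h8) (by omega) (fun h18 => absurd h18 h13))
    (h.c1 x hxS hlx b h15 h17 (hnt b h10) (by omega) (fun h18 => absurd h18 h16))

/-- the sum over the high neighbours of a function with two values -/
theorem sum_two {x : V} (m : ℕ) (p q : ℤ) :
    ∑ u ∈ hn G S x, (if m ≤ dg G S u then p else q) =
      p * ((hn G S x).filter fun u => m ≤ dg G S u).card +
        q * ((hn G S x).filter fun u => ¬ m ≤ dg G S u).card := by
  rw [← sum_filter_add_sum_filter_not (hn G S x) (fun u => m ≤ dg G S u)]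
  congr 1
  · rw [sum_congr rfl (g := fun _ => p) (fun u hu => by rw [if_pos (mem_filter.1 hu).2]),
      sum_const, nsmul_eq_mul, mul_comm]
  · rw [sum_congr rfl (g := fun _ => q) (fun u hu => by rw [if_neg (mem_filter.1 hu).2]),
      sum_const, nsmul_eq_mul, mul_comm]

/-- the first scheme at a low vertex -/
theorem L6.lowA (h : L6 G S) {x : V} (hx : x ∈ lo G S 6) :
    360 - 30 * iq (ty G S x) + 60 * ((if ty G S x = 4 then 3 else 0) +
      (if ty G S x = 6 then 2 else 0) - (if ty G S x = 2 then 6 else 0)) ≤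
      ∑ u ∈ hn G S x, gA (dg G S u) (ty G S x) := by
  obtain ⟨hxS, hlx⟩ := mem_lo.1 hx
  have hc := hn_card (G := G) (S := S) x
  have hf := h.few hx
  have hs := card_filter_add_card_filter_not (s := hn G S x)
    (fun u => 7 + (tws G S x).card ≤ dg G S u)
  rw [hlx] at hc
  rcases h.cases hx with ⟨e, h1, h2⟩ | ⟨e, h1, h2, v, hv, hxv, htv⟩ | ⟨e, h1, h2⟩ |
    ⟨e, h1, h2⟩ | ⟨e, h1, v, hv, hxv, hnt⟩ | ⟨e, h1, h2⟩ | ⟨e, h1, v, hv, hxv, hnt⟩ | ⟨e, h1⟩ <;>
    rw [e] <;> simp only [gA, iq]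
  · simp
  · obtain ⟨hvS, hlv⟩ := mem_lo.1 hv
    have h3 : ln G S x = {v} := by
      ext w
      rw [mem_singleton]
      constructor
      · intro hw
        obtain ⟨h4, h5⟩ := mem_ln.1 hw
        by_contra hwv
        exact (h.edge hxS hlx h1 hvS hlv htv hxv).2 w h4.1 h5 hwv h4.2
      · rintro rfl
        exact mem_ln.2 ⟨⟨hvS, hlv⟩, hxv⟩
    rw [h3, card_singleton] at hc
    rw [sum_const, nsmul_eq_mul, show (hn G S x).card = 5 by omega]
    norm_num
  · simp
  · have h3 := hn_all hx h2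
    rw [sum_two]
    rw [h1] at hf hs h3
    simp only [Nat.reduceAdd] at hf hs
    have h4 : 4 ≤ ((hn G S x).filter fun u => 8 ≤ dg G S u).card := by omega
    have h5 : (4 : ℤ) ≤ ((hn G S x).filter fun u => 8 ≤ dg G S u).card := by exact_mod_cast h4
    norm_num
    linarith
  · have h3 := h.hn_df hx (by omega) hv hxv hnt
    rw [sum_const, nsmul_eq_mul, show (hn G S x).card = 4 by omega]
    norm_num
  · have h3 := hn_all hx h2
    rw [sum_two]
    rw [h1] at hf hs h3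
    simp only [Nat.reduceAdd] at hf hs
    have h4 : 3 ≤ ((hn G S x).filter fun u => 9 ≤ dg G S u).card := by omega
    have h5 : (3 : ℤ) ≤ ((hn G S x).filter fun u => 9 ≤ dg G S u).card := by exact_mod_cast h4
    norm_num
    linarith
  · have h3 := h.hn_df hx (by omega) hv hxv hnt
    rw [sum_const, nsmul_eq_mul, show (hn G S x).card = 3 by omega]
    norm_num
  · have h3 := hn_all hx (fun w hw hxw => by
      by_contra h10
      have := h.four hxS hlx h1 (mem_lo.1 hw).1 hxw h10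
      have := (mem_lo.1 hw).2
      omega)
    rw [sum_const, nsmul_eq_mul, show (hn G S x).card = 3 by omega]
    norm_num

/-- the second scheme at a low vertex -/
theorem L6.lowC (h : L6 G S) {x : V} (hx : x ∈ lo G S 6) :
    72 * (6 - iq (ty G S x)) + 72 * ((if ty G S x = 4 then 3 else 0) +
      (if ty G S x = 6 then 2 else 0) - (if ty G S x = 2 then 6 else 0)) ≤
      ∑ u ∈ hn G S x, gC (dg G S u) (ty G S x) := by
  obtain ⟨hxS, hlx⟩ := mem_lo.1 hx
  have hc := hn_card (G := G) (S := S) x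
  have hf := h.few hx
  have hs := card_filter_add_card_filter_not (s := hn G S x)
    (fun u => 7 + (tws G S x).card ≤ dg G S u)
  rw [hlx] at hc
  rcases h.cases hx with ⟨e, h1, h2⟩ | ⟨e, h1, h2, v, hv, hxv, htv⟩ | ⟨e, h1, h2⟩ |
    ⟨e, h1, h2⟩ | ⟨e, h1, v, hv, hxv, hnt⟩ | ⟨e, h1, h2⟩ | ⟨e, h1, v, hv, hxv, hnt⟩ | ⟨e, h1⟩ <;>
    rw [e] <;> simp only [gC, iq]
  · have h3 : ln G S x = ∅ := by
      rw [eq_empty_iff_forall_notMem]
      intro v hv
      obtain ⟨h4, h5⟩ := mem_ln.1 hv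
      exact h2 v (mem_lo.2 h4) h5
    rw [h3, card_empty] at hc
    rw [sum_const, nsmul_eq_mul, show (hn G S x).card = 6 by omega]
    norm_num
  · simp
  · simp
  · have h3 := hn_all hx h2
    rw [sum_two]
    rw [h1] at hf hs h3
    simp only [Nat.reduceAdd] at hf hs
    generalize ((hn G S x).filter fun u => 8 ≤ dg G S u).card = p at *
    generalize ((hn G S x).filter fun u => ¬ 8 ≤ dg G S u).card = q at *
    norm_num
    omega
  · have h3 := h.hn_df hx (by omega) hv hxv hnt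
    rw [sum_const, nsmul_eq_mul, show (hn G S x).card = 4 by omega]
    norm_num
  · have h3 := hn_all hx h2
    rw [sum_two]
    rw [h1] at hf hs h3
    simp only [Nat.reduceAdd] at hf hs
    generalize ((hn G S x).filter fun u => 9 ≤ dg G S u).card = p at *
    generalize ((hn G S x).filter fun u => ¬ 9 ≤ dg G S u).card = q at *
    norm_num
    omega
  · have h3 := h.hn_df hx (by omega) hv hxv hnt
    rw [sum_const, nsmul_eq_mul, show (hn G S x).card = 3 by omega]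
    norm_num
  · have h3 := hn_all hx (fun w hw hxw => by
      by_contra h10
      have := h.four hxS hlx h1 (mem_lo.1 hw).1 hxw h10
      have := (mem_lo.1 hw).2
      omega)
    rw [sum_const, nsmul_eq_mul, show (hn G S x).card = 3 by omega]
    norm_num

/-- the weights of the linked clusters -/
def sw : ℕ → ℤ
  | 4 => 3
  | 6 => 2
  | _ => 0

theorem sw_nonneg (j : ℕ) : 0 ≤ sw j := by
  unfold sw
  split <;> norm_num

/-- a star centre sees weight at least six -/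
theorem L6.star_ge (h : L6 G S) {v : V} (hv : v ∈ lo G S 6) (hF : isF G S v) :
    6 ≤ ∑ x ∈ ln G S v, sw (ty G S x) := by
  obtain ⟨hvS, hlv⟩ := mem_lo.1 hv
  obtain ⟨htv, x, hx, hvx, htx⟩ := hF
  obtain ⟨hxS, hlx⟩ := mem_lo.1 hx
  have hnt : ¬ Tw G S x v := fun h3 => by
    have := tw_pos hxS h3.symm
    omega
  have h2 := (h.df hxS hlx htx hvS hlv hvx.symm hnt).2.2.1
  have hsub : clu G S x ⊆ ln G S v := by
    intro y hy
    have hyl := clu_lo hx hy
    refine mem_ln.2 ⟨mem_lo.1 hyl, ?_⟩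
    obtain ⟨hyS, rfl | h4⟩ := mem_clu.1 hy
    · exact hvx
    · have hyv : v ≠ y := by
        rintro rfl
        exact hnt h4
      exact ((h4.2 v hvS hvx.ne hyv).1 hvx.symm).symm
  have h3 : ∑ y ∈ clu G S x, sw (ty G S y) ≤ ∑ y ∈ ln G S v, sw (ty G S y) :=
    sum_le_sum_of_subset_of_nonneg hsub fun y _ _ => sw_nonneg _
  have h4 : ∑ y ∈ clu G S x, sw (ty G S y) = ((tws G S x).card + 1) * sw (ty G S x) := by
    rw [sum_congr rfl (g := fun _ => sw (ty G S x)) (fun y hy => by rw [ty_tw hx hy]), sum_const,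
      nsmul_eq_mul, clu_card hxS]
    push_cast
    ring
  rw [h4] at h3
  refine le_trans ?_ h3
  rcases h.cases hx with ⟨e, h1, _⟩ | ⟨e, h1, _⟩ | ⟨e, h1, _⟩ |
    ⟨e, h1, h5⟩ | ⟨e, h1, _⟩ | ⟨e, h1, h5⟩ | ⟨e, h1, _⟩ | ⟨e, h1⟩
  all_goals first | omega | skip
  · exact absurd (h5 v hv hvx.symm) hnt
  · rw [e, h1]
    norm_num [sw]
  · exact absurd (h5 v hv hvx.symm) hnt
  · rw [e, h1]
    norm_num [sw]

/-- the number of star centres is bounded by the linked clusters -/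
theorem L6.stars (h : L6 G S) :
    0 ≤ ∑ x ∈ lo G S 6, ((if ty G S x = 4 then (3 : ℤ) else 0) +
      (if ty G S x = 6 then 2 else 0) - (if ty G S x = 2 then 6 else 0)) := by
  set FF := (lo G S 6).filter fun v => ty G S v = 2 with hFF
  have hFm : ∀ v ∈ FF, v ∈ lo G S 6 ∧ isF G S v := by
    intro v hv
    obtain ⟨h1, h2⟩ := mem_filter.1 hv
    refine ⟨h1, ?_⟩
    rcases h.cases h1 with ⟨e, _⟩ | ⟨e, _⟩ | ⟨e, h3, h4⟩ |
      ⟨e, _⟩ | ⟨e, _⟩ | ⟨e, _⟩ | ⟨e, _⟩ | ⟨e, _⟩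
    all_goals first | omega | exact h4
  have e1 : ∑ x ∈ lo G S 6, ((if ty G S x = 4 then (3 : ℤ) else 0) +
      (if ty G S x = 6 then 2 else 0) - (if ty G S x = 2 then 6 else 0)) =
      ∑ x ∈ lo G S 6, sw (ty G S x) - 6 * FF.card := by
    rw [sum_sub_distrib]
    congr 1
    · apply sum_congr rfl
      intro x _
      have := ty_lt (G := G) (S := S) x
      generalize ty G S x = j at *
      interval_cases j <;> norm_num [sw]
    · rw [← sum_filter, sum_const, nsmul_eq_mul, mul_comm]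
  have e2 : 6 * (FF.card : ℤ) ≤ ∑ v ∈ FF, ∑ x ∈ ln G S v, sw (ty G S x) := by
    have : ∑ v ∈ FF, (6 : ℤ) ≤ ∑ v ∈ FF, ∑ x ∈ ln G S v, sw (ty G S x) :=
      sum_le_sum fun v hv => h.star_ge (hFm v hv).1 (hFm v hv).2
    rw [sum_const, nsmul_eq_mul, mul_comm] at this
    exact this
  have e3 : ∑ v ∈ FF, ∑ x ∈ ln G S v, sw (ty G S x) =
      ∑ x ∈ lo G S 6, ∑ v ∈ FF.filter (fun v => G.Adj v x), sw (ty G S x) := by
    apply sum_comm'
    intro v x
    constructor
    · rintro ⟨h1, h2⟩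
      obtain ⟨h3, h4⟩ := mem_ln.1 h2
      exact ⟨mem_filter.2 ⟨h1, h4⟩, mem_lo.2 h3⟩
    · rintro ⟨h1, h2⟩
      obtain ⟨h3, h4⟩ := mem_filter.1 h1
      exact ⟨h3, mem_ln.2 ⟨mem_lo.1 h2, h4⟩⟩
  have e4 : ∑ x ∈ lo G S 6, ∑ v ∈ FF.filter (fun v => G.Adj v x), sw (ty G S x) ≤
      ∑ x ∈ lo G S 6, sw (ty G S x) := by
    apply sum_le_sum
    intro x hx
    obtain ⟨hxS, hlx⟩ := mem_lo.1 hx
    rw [sum_const, nsmul_eq_mul]
    by_cases hj : 1 ≤ (tws G S x).card
    · have h1 : (FF.filter fun v => G.Adj v x).card ≤ 1 := by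
        rw [card_le_one]
        intro a ha b hb
        obtain ⟨ha1, ha2⟩ := mem_filter.1 ha
        obtain ⟨hb1, hb2⟩ := mem_filter.1 hb
        obtain ⟨hal, haF⟩ := hFm a ha1
        obtain ⟨hbl, hbF⟩ := hFm b hb1
        have hnt : ∀ c, isF G S c → ¬ Tw G S x c := fun c hc h3 => by
          have := tw_pos hxS h3.symm
          have := hc.1
          omega
        by_contra hab
        exact ((h.df hxS hlx hj (mem_lo.1 hal).1 (mem_lo.1 hal).2 ha2.symm
          (hnt a haF)).2.2.2 b (mem_lo.1 hbl).1 hb2.symm (hnt b hbF) (Ne.symm hab)).1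
          (mem_lo.1 hbl).2
      have h2 : (((FF.filter fun v => G.Adj v x).card : ℕ) : ℤ) ≤ 1 := by exact_mod_cast h1
      have h3 := sw_nonneg (ty G S x)
      nlinarith
    · have h1 : sw (ty G S x) = 0 := by
        rcases h.cases hx with ⟨e, _⟩ | ⟨e, _⟩ | ⟨e, _⟩ |
          ⟨e, h1, _⟩ | ⟨e, h1, _⟩ | ⟨e, h1, _⟩ | ⟨e, h1, _⟩ | ⟨e, h1⟩
        all_goals first | omega | skip
        all_goals rw [e]; rfl
      rw [h1]
      simp
  rw [e1]
  linarith

/-- summation -/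
theorem L6.bal (h : L6 G S) {g : ℕ → ℕ → ℤ} {cost : ℕ → ℤ} {k : ℤ} (hk : 0 ≤ k)
    (hlow : ∀ x ∈ lo G S 6, cost (ty G S x) + k * ((if ty G S x = 4 then 3 else 0) +
      (if ty G S x = 6 then 2 else 0) - (if ty G S x = 2 then 6 else 0)) ≤
      ∑ u ∈ hn G S x, g (dg G S u) (ty G S x)) :
    ∑ x ∈ lo G S 6, cost (ty G S x) ≤
      ∑ u ∈ S.filter (fun u => dg G S u ≠ 6), ∑ x ∈ ln G S u, g (dg G S u) (ty G S x) := by
  have h1 := sum_le_sum hlow
  rw [sum_add_distrib, ← mul_sum] at h1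
  have h2 := mul_nonneg hk h.stars
  have sw : ∑ x ∈ lo G S 6, ∑ u ∈ hn G S x, g (dg G S u) (ty G S x) =
      ∑ u ∈ S.filter (fun u => dg G S u ≠ 6), ∑ x ∈ ln G S u, g (dg G S u) (ty G S x) := by
    apply sum_comm'
    intro x u
    rw [mem_filter, mem_hn, mem_ln, mem_lo]
    constructor
    · rintro ⟨h1, h2, h3⟩
      exact ⟨⟨h1, h3.symm⟩, h2⟩
    · rintro ⟨⟨h1, h3⟩, h2⟩
      exact ⟨h1, h2, h3.symm⟩
  rw [sw] at h1
  linarith

end Pool.Agent.OX46.Six
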