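import Mathlib

/-!
# Permutations of six colours
-/

set_option autoImplicit false

open scoped Classical
open Finset

namespace Pool.Agent.OX46.Six

/-- a permutation that maps `L` onto `L'` -/
theorem exists_map {L L' : Finset (Fin 6)} (h : L.card = L'.card) :
    ∃ τ : Equiv.Perm (Fin 6), L.image (fun x => τ x) = L' := by
  have e : {x // x ∈ L} ≃ {x // x ∈ L'} := Finset.equivOfCardEq h
  refine ⟨Equiv.extendSubtype (p := fun x => x ∈ L) (q := fun x => x ∈ L') e, ?_⟩
  apply eq_of_subset_of_card_le
  · intro y hy
    obtain ⟨x, hx, rfl⟩ := mem_image.1 hy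
    exact Equiv.extendSubtype_mem (p := fun x => x ∈ L) (q := fun x => x ∈ L') e x hx
  · rw [card_image_of_injective _ (Equiv.injective _), h]

/-- the image of a set of colours -/
noncomputable def im (σ : Equiv.Perm (Fin 6)) (N : Finset (Fin 6)) : Finset (Fin 6) :=
  N.image fun x => σ x

theorem im_card (σ : Equiv.Perm (Fin 6)) (N : Finset (Fin 6)) : (im σ N).card = N.card :=
  card_image_of_injective _ (Equiv.injective σ)

/-- the permutations that map `N` onto `L` -/
noncomputable def fib (N L : Finset (Fin 6)) : Finset (Equiv.Perm (Fin 6)) :=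
  univ.filter fun σ : Equiv.Perm (Fin 6) => im σ N = L

/-- the permutations that map `N` onto a set containing `F` -/
noncomputable def bp (N F : Finset (Fin 6)) : Finset (Equiv.Perm (Fin 6)) :=
  univ.filter fun σ : Equiv.Perm (Fin 6) => F ⊆ im σ N

theorem fib_le {N L L' : Finset (Fin 6)} (h : L.card = L'.card) :
    (fib N L).card ≤ (fib N L').card := by
  obtain ⟨τ, hτ⟩ := exists_map h
  apply card_le_card_of_injOn (fun σ => τ * σ)
  · intro σ hσ
    have h1 : im σ N = L := (mem_filter.1 (mem_coe.1 hσ)).2
    refine mem_coe.2 (mem_filter.2 ⟨mem_univ _, ?_⟩)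
    rw [← hτ, ← h1]
    unfold im
    rw [image_image]
    rfl
  · intro a _ b _ hab
    exact mul_left_cancel hab

theorem six_fact : Nat.factorial 6 = 720 := by
  simp [Nat.factorial]

theorem fib_card {N L : Finset (Fin 6)} (h : N.card = L.card) :
    Nat.choose 6 N.card * (fib N L).card = 720 := by
  have h1 : ∀ b ∈ powersetCard N.card (univ : Finset (Fin 6)),
      ((univ : Finset (Equiv.Perm (Fin 6))).filter
        fun σ : Equiv.Perm (Fin 6) => im σ N = b).card = (fib N L).card := by
    intro b hb
    have hb' := (mem_powersetCard.1 hb).2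
    exact le_antisymm (fib_le (by omega)) (fib_le (by omega))
  have h2 := card_eq_sum_card_fiberwise (f := fun σ : Equiv.Perm (Fin 6) => im σ N)
    (s := (univ : Finset (Equiv.Perm (Fin 6))))
    (t := powersetCard N.card (univ : Finset (Fin 6)))
    (fun σ _ => mem_coe.2 (mem_powersetCard.2 ⟨subset_univ _, im_card σ N⟩))
  rw [sum_congr rfl h1, sum_const, smul_eq_mul, card_powersetCard, card_univ, card_univ,
    Fintype.card_perm, Fintype.card_fin, six_fact] at h2
  exact h2.symm

/-- the number of bad permutations -/
def bd (j : ℕ) : ℕ := if j = 1 then 120 else if j = 2 then 48 else if j = 3 then 36 else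
  if j = 4 then 48 else 720

theorem bad_le {N F : Finset (Fin 6)} (h : N.card ≤ F.card) (h1 : 1 ≤ N.card) :
    (bp N F).card ≤ bd N.card := by
  by_cases h2 : N.card = F.card
  · have h3 : bp N F ⊆ fib N F := by
      intro σ hσ
      have h4 := (mem_filter.1 hσ).2
      refine mem_filter.2 ⟨mem_univ _, ?_⟩
      symm
      apply eq_of_subset_of_card_le h4
      rw [im_card, h2]
    have h4 := card_le_card h3
    have h5 := fib_card h2
    have h6 : N.card ≤ 6 := by
      have := card_le_univ N
      simpa using this
    refine h4.trans ?_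
    generalize N.card = j at *
    unfold bd
    interval_cases j
    · norm_num at h5 ⊢
      omega
    · have : Nat.choose 6 2 = 15 := by decide
      rw [this] at h5
      norm_num
      omega
    · have : Nat.choose 6 3 = 20 := by decide
      rw [this] at h5
      norm_num
      omega
    · have : Nat.choose 6 4 = 15 := by decide
      rw [this] at h5
      norm_num
      omega
    · have : Nat.choose 6 5 = 6 := by decide
      rw [this] at h5
      norm_num
      omega
    · have : Nat.choose 6 6 = 1 := by decide
      rw [this] at h5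
      norm_num
      omega
  · have h3 : bp N F = ∅ := by
      unfold bp
      rw [filter_eq_empty_iff]
      intro σ _ h4
      have h5 := card_le_card h4
      rw [im_card] at h5
      omega
    rw [h3, card_empty]
    omega

/-- a permutation that avoids few restrictions -/
theorem exists_perm {ι : Type} (I : Finset ι) (N F : ι → Finset (Fin 6))
    (h : ∀ i ∈ I, (N i).card ≤ (F i).card) (h1 : ∀ i ∈ I, 1 ≤ (N i).card)
    (hs : ∑ i ∈ I, bd (N i).card < 720) :
    ∃ σ : Equiv.Perm (Fin 6), ∀ i ∈ I, ¬ F i ⊆ im σ (N i) := by
  by_contra hcon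
  push Not at hcon
  have h2 : (univ : Finset (Equiv.Perm (Fin 6))) ⊆ I.biUnion fun i => bp (N i) (F i) := by
    intro σ _
    obtain ⟨i, hi, hi'⟩ := hcon σ
    exact mem_biUnion.2 ⟨i, hi, mem_filter.2 ⟨mem_univ _, hi'⟩⟩
  have h3 := (card_le_card h2).trans card_biUnion_le
  have h4 : ∑ i ∈ I, (bp (N i) (F i)).card ≤ ∑ i ∈ I, bd (N i).card :=
    sum_le_sum fun i hi => bad_le (h i hi) (h1 i hi)
  have h5 : (univ : Finset (Equiv.Perm (Fin 6))).card = 720 := by
    rw [card_univ, Fintype.card_perm, Fintype.card_fin, six_fact]
  omega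

end Pool.Agent.OX46.Six
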