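import Pool.Agent.Lib_helper46.OX.E6
import Pool.Agent.Lib_helper46.OX.P22
import Pool.Agent.Lib_helper28.OW.G5n

/-!
# Six colours: twenty-two vertices
-/

set_option autoImplicit false
set_option linter.unusedSectionVars false
set_option linter.unusedVariables false

open scoped Classical
open Finset
open Pool.Agent.O2 (PC Cb CrOn pr ms dg nd)
open Pool.Agent.O3 (con hit Clq)
open Pool.Agent.OW28 (NoCE)
open Pool.Agent.OW

namespace Pool.Agent.OX46.Six

variable {V : Type} {G : SimpleGraph V} {S : Finset V}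

theorem b5_le {m : ℕ} (hm : 5 ≤ m) (h : (m : ℤ) ≤ Pool.Agent.OW28G.b5 m) : m = 5 := by
  unfold Pool.Agent.OW28G.b5 Pool.Agent.OW28G.v5 at h
  split_ifs at h <;> omega

/-- a critical set with six vertices is a clique -/
theorem clq_of_six {T : Finset V} (hT : CrOn G T 5) (h6 : T.card = 6) : Clq G T := by
  intro a ha b hb hab
  have h1 := hT.dg_ge ha
  have h2 : (T.filter fun y => G.Adj a y) ⊆ T.erase a := by
    intro y hy
    obtain ⟨h3, h4⟩ := mem_filter.1 hy
    exact mem_erase.2 ⟨h4.ne', h3⟩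
  have h3 : (T.filter fun y => G.Adj a y) = T.erase a := by
    apply eq_of_subset_of_card_le h2
    rw [card_erase_of_mem ha, h6]
    exact h1
  have h4 : b ∈ T.filter fun y => G.Adj a y := by
    rw [h3]
    exact mem_erase.2 ⟨Ne.symm hab, hb⟩
  exact (mem_filter.1 h4).2

/-- the number of low vertices of a clique with few outer edges -/
theorem L6.few_low (h : L6 G S) {A T : Finset V} (hA : A ⊆ lo G S 6)
    (hF : ∀ a ∈ A, ¬ isF G S a) (hTS : T ⊆ S \ A) (hq : Clq G T) (h6 : T.card = 6)
    (he : ∑ t ∈ T, dg G ((S \ A) \ T) t ≤ 1) : (T.filter fun t => dg G S t = 6).card ≤ 1 := by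
  rw [card_le_one]
  intro t ht t' ht'
  obtain ⟨h1, h2⟩ := mem_filter.1 ht
  obtain ⟨h1', h2'⟩ := mem_filter.1 ht'
  by_contra hne
  have hT : T ⊆ S := hTS.trans sdiff_subset
  obtain ⟨z, hz, htz, hu⟩ := Pool.Agent.OW28.out_one hT hq h6 (by norm_num) h1 h2
  obtain ⟨hzS, hzT⟩ := mem_sdiff.1 hz
  have hcl : Clq G (cn G S z t) := by
    intro a ha b hb hab
    have key : ∀ y ∈ cn G S z t, y ∈ T := by
      intro y hy
      rcases mem_cn.1 hy with rfl | ⟨h3, h4, h5⟩
      · exact h1
      · by_contra h6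
        exact h3 (hu y h4 h5 h6)
    exact hq a (key a ha) b (key b hb) hab
  have htt := hq t h1 t' h1' hne
  have htw := h.c2 t (hT h1) h2 z hzS htz hcl t' (hT h1') htt (fun e => hzT (e ▸ h1')) h2'
  have hzt' : G.Adj t' z := (htw.2 z hzS htz.ne' (fun e => hzT (e ▸ h1'))).1 htz
  have h1t := tw_pos (hT h1') htw
  by_cases hzA : z ∈ A
  · have hnt : ¬ Tw G S t z := by
      intro h3
      have h4 := h.nce T hT hq h6 z hzS hzT
      have h5 : (T.filter fun s => ¬ G.Adj z s) = ∅ := by
        rw [filter_eq_empty_iff]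
        intro s hs h6
        apply h6
        by_cases hst : s = t
        · rw [hst]
          exact htz.symm
        · exact ((h3.2 s (hT hs) hst (fun e => hzT (e ▸ hs))).1
            (hq t h1 s hs (Ne.symm hst)))
      rw [h5, card_empty] at h4
      omega
    exact hF z hzA (h.isF_of (mem_lo.2 ⟨hT h1, h2⟩) h1t (hA hzA) htz hnt)
  · have hzW : z ∈ (S \ A) \ T := mem_sdiff.2 ⟨mem_sdiff.2 ⟨hzS, hzA⟩, hzT⟩
    have h3 : 1 ≤ dg G ((S \ A) \ T) t := card_pos.2 ⟨z, mem_filter.2 ⟨hzW, htz⟩⟩
    have h4 : 1 ≤ dg G ((S \ A) \ T) t' := card_pos.2 ⟨z, mem_filter.2 ⟨hzW, hzt'⟩⟩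
    have h5 : ∑ s ∈ ({t, t'} : Finset V), dg G ((S \ A) \ T) s ≤
        ∑ s ∈ T, dg G ((S \ A) \ T) s := by
      apply sum_le_sum_of_subset
      intro s hs
      rcases mem_insert.1 hs with rfl | hs
      · exact h1
      · rw [mem_singleton.1 hs]
        exact h1'
    rw [sum_pair hne] at h5
    omega

/-- twenty-two vertices -/
theorem end6_22 (h : L6 G S) (h5 : C5 G S) (hn : S.card = 22) (hd : 6 ≤ df G 6 S)
    (hc5 : ∀ R ⊆ S, CrOn G R 5 → df G 5 R ≤ Pool.Agent.OW28G.b5 (R.card - 1)) : False := by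
  obtain ⟨A, hA, hF, hi, hc⟩ := h.indep h5
  have hAS : A ⊆ S := fun x hx => (mem_lo.1 (hA hx)).1
  have hAd : ∀ x ∈ A, dg G S x = 6 := fun x hx => (mem_lo.1 (hA hx)).2
  have hAn : A.Nonempty := by
    apply card_pos.1
    omega
  have hks := km_s h.cr hi hA hAn
  rw [hn] at hks
  push_cast at hks
  have hA6 : A.card = 6 := by omega
  have hdf : df G 6 S = 6 := by omega
  -- the set `S \ A`
  have hn5 : ¬ Cb G (S \ A) 5 := by
    intro hcb
    apply h.cr.1
    have h1 : Cb G A 1 := Pool.Agent.O2.cb_one hi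
    have h2 := Pool.Agent.O2.cb_union hcb h1
    rw [sdiff_union_of_subset hAS] at h2
    exact h2
  obtain ⟨T, hTA, hTc⟩ := Pool.Agent.O2.exists_crOn hn5
  have hT : T ⊆ S := hTA.trans sdiff_subset
  have hexc := exc_le (by norm_num : 0 < 6) h.cr hAn hAS hTA hi hAd
  rw [hn, hA6, hdf, sum_sub_distrib, sum_const, nsmul_eq_mul] at hexc
  push_cast at hexc
  have hT6 : T.card = 6 := by
    have h1 := hc5 T hT hTc
    have h2 : df G 5 T = 6 * (T.card : ℤ) - ∑ t ∈ T, (dg G T t : ℤ) := by
      unfold df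
      rw [Pool.Agent.O2.pr_sum]
      push_cast
      ring
    have h3 : ∑ t ∈ T, (dg G T t : ℤ) ≤ ∑ t ∈ T, (dg G (S \ A) t : ℤ) :=
      sum_le_sum fun t _ => by exact_mod_cast Pool.Agent.O2.dg_mono hTA t
    have h4 := hTc.card_ge
    have h5 := b5_le (m := T.card - 1) (by omega) (by
      rw [Nat.cast_sub (by omega)]
      push_cast
      linarith)
    omega
  have hq := clq_of_six hTc hT6
  set W := (S \ A) \ T with hW
  have hWS : W ⊆ S := sdiff_subset.trans sdiff_subset
  have hdT : ∀ t ∈ T, dg G (S \ A) t = 5 + dg G W t := by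
    intro t ht
    have h1 : dg G (T ∪ W) t = dg G T t + dg G W t := Pool.Agent.O2.dg_union disjoint_sdiff t
    rw [hW, union_sdiff_of_subset hTA] at h1
    rw [h1, Pool.Agent.OW28.clq_dg hq ht, hT6]
  have heps : ∑ t ∈ T, dg G W t ≤ 1 := by
    have h1 : ∑ t ∈ T, (dg G (S \ A) t : ℤ) = ∑ t ∈ T, (5 + (dg G W t : ℤ)) :=
      sum_congr rfl fun t ht => by rw [hdT t ht]; push_cast; rfl
    rw [h1, sum_add_distrib, sum_const, nsmul_eq_mul, hT6] at hexc
    push_cast at hexc
    have h2 : ((∑ t ∈ T, dg G W t : ℕ) : ℤ) ≤ 1 := by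
      push_cast
      linarith
    exact_mod_cast h2
  have hfl := h.few_low hA hF hTA hq hT6 heps
  -- the edges between `T` and `A`
  have hsum : 41 ≤ ∑ t ∈ T, dg G S t := by
    have h1 : ∀ t ∈ T, 7 ≤ dg G S t + (if dg G S t = 6 then 1 else 0) := by
      intro t ht
      have := h.cr.dg_ge (hT ht)
      split_ifs <;> omega
    have h2 := sum_le_sum h1
    rw [sum_const, sum_add_distrib, ← sum_filter, sum_const, hT6] at h2
    simp only [smul_eq_mul, mul_one] at h2
    omega
  have hdA : ∀ t ∈ T, dg G S t = 5 + dg G W t + dg G A t := by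
    intro t ht
    have h1 : dg G (S \ A ∪ A) t = dg G (S \ A) t + dg G A t :=
      Pool.Agent.O2.dg_union sdiff_disjoint t
    rw [sdiff_union_of_subset hAS, hdT t ht] at h1
    exact h1
  have hTA2 : ∑ t ∈ T, dg G A t = ∑ a ∈ A, dg G T a := by
    have := Pool.Agent.O2.pr_symm G T A
    rw [Pool.Agent.O2.pr_sum, Pool.Agent.O2.pr_sum] at this
    exact this
  have hTW2 : ∑ t ∈ T, dg G W t = ∑ w ∈ W, dg G T w := by
    have := Pool.Agent.O2.pr_symm G T W
    rw [Pool.Agent.O2.pr_sum, Pool.Agent.O2.pr_sum] at this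
    exact this
  have hjsum : 11 ≤ ∑ a ∈ A, dg G T a + ∑ w ∈ W, dg G T w := by
    rw [sum_congr rfl hdA, sum_add_distrib, sum_add_distrib, sum_const, hT6, hTA2, hTW2] at hsum
    simp only [smul_eq_mul] at hsum
    omega
  rw [hTW2] at heps
  have hj4 : ∀ a ∈ A, dg G T a ≤ 4 := by
    intro a ha
    have haT : a ∉ T := fun h1 => (mem_sdiff.1 (hTA h1)).2 ha
    have h1 := h.nce T hT hq hT6 a (hAS ha) haT
    have h2 := card_filter_add_card_filter_not (s := T) (fun t => G.Adj a t)
    unfold dg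
    omega
  have hjW : ∀ w ∈ W, dg G T w ≤ 1 := fun w hw =>
    (single_le_sum (f := fun w => dg G T w) (fun _ _ => Nat.zero_le _) hw).trans heps
  -- the colouring of the rest
  have hTn : T.Nonempty := card_pos.1 (by omega)
  obtain ⟨φ, hφ⟩ := (Pool.Agent.O2.cb_fin (by norm_num)).1 (h.cr.sub (T := S \ T) sdiff_subset
    (fun e => by
      obtain ⟨t, ht⟩ := hTn
      have : t ∈ S \ T := by rw [e]; exact hT ht
      exact (mem_sdiff.1 this).2 ht))
  obtain ⟨E, hE⟩ : ∃ E : V → Fin 6, ∀ a ∈ T, ∀ b ∈ T, E a = E b → a = b := by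
    refine ⟨fun v => if hv : v ∈ T then T.equivFinOfCardEq hT6 ⟨v, hv⟩ else 0, ?_⟩
    intro a ha b hb hab
    simp only [ha, hb, dif_pos] at hab
    exact congrArg Subtype.val ((T.equivFinOfCardEq hT6).injective hab)
  set N : V → Finset (Fin 6) := fun v => (T.filter fun t => G.Adj v t).image E with hN
  have hNc : ∀ v, (N v).card = dg G T v := by
    intro v
    rw [hN]
    exact card_image_of_injOn fun a ha b hb hab =>
      hE a (mem_filter.1 (mem_coe.1 ha)).1 b (mem_filter.1 (mem_coe.1 hb)).1 hab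
  set F : V → Finset (Fin 6) := fun v =>
    if v ∈ A then univ \ ((W.filter fun w => G.Adj v w).image φ) else {φ v} with hFd
  set I := (A ∪ W).filter fun v => 1 ≤ dg G T v with hI
  have hAW : Disjoint A W := by
    rw [disjoint_left]
    intro x hx hx'
    exact (mem_sdiff.1 (mem_sdiff.1 hx').1).2 hx
  have hNF : ∀ v ∈ I, (N v).card ≤ (F v).card := by
    intro v hv
    obtain ⟨h1, h2⟩ := mem_filter.1 hv
    rw [hNc, hFd]
    by_cases hvA : v ∈ A
    · simp only [hvA, if_true]
      have h3 : ((W.filter fun w => G.Adj v w).image φ).card ≤ dg G W v := card_image_le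
      have h4 := card_sdiff_add_card_inter (univ : Finset (Fin 6))
        ((W.filter fun w => G.Adj v w).image φ)
      rw [univ_inter, card_univ, Fintype.card_fin] at h4
      have h5 : dg G S v = dg G T v + dg G W v := by
        have e1 : dg G (S \ A ∪ A) v = dg G (S \ A) v + dg G A v :=
          Pool.Agent.O2.dg_union sdiff_disjoint v
        have e2 : dg G (T ∪ W) v = dg G T v + dg G W v :=
          Pool.Agent.O2.dg_union disjoint_sdiff v
        have e3 : dg G A v = 0 := by
          unfold dg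
          rw [card_eq_zero, filter_eq_empty_iff]
          exact fun y hy => hi v hvA y hy
        rw [sdiff_union_of_subset hAS] at e1
        rw [show T ∪ W = S \ A from union_sdiff_of_subset hTA] at e2
        omega
      rw [hAd v hvA] at h5
      omega
    · simp only [hvA, if_false, card_singleton]
      rcases mem_union.1 h1 with h3 | h3
      · exact absurd h3 hvA
      · exact hjW v h3
  have hN1 : ∀ v ∈ I, 1 ≤ (N v).card := by
    intro v hv
    rw [hNc]
    exact (mem_filter.1 hv).2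
  have hbad : ∑ v ∈ I, bd (N v).card < 720 := by
    have e1 : ∑ v ∈ I, bd (N v).card =
        ∑ v ∈ A, (if 1 ≤ dg G T v then bd (dg G T v) else 0) +
        ∑ v ∈ W, (if 1 ≤ dg G T v then bd (dg G T v) else 0) := by
      rw [hI, sum_filter, sum_union hAW]
      simp only [hNc]
    have e2 : ∑ v ∈ W, (if 1 ≤ dg G T v then bd (dg G T v) else 0) ≤
        120 * ∑ v ∈ W, dg G T v := by
      rw [mul_sum]
      apply sum_le_sum
      intro w hw
      have h1 := hjW w hw
      by_cases h2 : 1 ≤ dg G T w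
      · rw [if_pos h2, show dg G T w = 1 by omega]
        norm_num [bd]
      · rw [if_neg h2]
        omega
    have hj8 : ∀ a ∈ A, dg G T a < 8 := fun a ha => by
      have := hj4 a ha
      omega
    have z : ∀ j, 5 ≤ j → (A.filter fun a => dg G T a = j).card = 0 := by
      intro j hj
      rw [card_eq_zero, filter_eq_empty_iff]
      intro a ha h1
      have := hj4 a ha
      omega
    have s1 : ∑ a ∈ A, (if 1 ≤ dg G T a then (bd (dg G T a) : ℤ) else 0) =
        120 * (A.filter fun a => dg G T a = 1).card + 48 * (A.filter fun a => dg G T a = 2).card +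
        36 * (A.filter fun a => dg G T a = 3).card +
        48 * (A.filter fun a => dg G T a = 4).card := by
      have := sum_ty A (fun a => dg G T a) hj8 (fun j => if 1 ≤ j then (bd j : ℤ) else 0)
      rw [z 5 (by omega), z 6 (by omega), z 7 (by omega)] at this
      refine this.trans ?_
      norm_num [bd]
    have s2 : ∑ a ∈ A, (dg G T a : ℤ) =
        (A.filter fun a => dg G T a = 1).card + 2 * (A.filter fun a => dg G T a = 2).card +
        3 * (A.filter fun a => dg G T a = 3).card +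
        4 * (A.filter fun a => dg G T a = 4).card := by
      have := sum_ty A (fun a => dg G T a) hj8 (fun j => (j : ℤ))
      rw [z 5 (by omega), z 6 (by omega), z 7 (by omega)] at this
      refine this.trans ?_
      norm_num
    have s3 : (6 : ℤ) = (A.filter fun a => dg G T a = 0).card +
        (A.filter fun a => dg G T a = 1).card + (A.filter fun a => dg G T a = 2).card +
        (A.filter fun a => dg G T a = 3).card + (A.filter fun a => dg G T a = 4).card := by
      have := sum_ty A (fun a => dg G T a) hj8 (fun _ => (1 : ℤ))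
      rw [z 5 (by omega), z 6 (by omega), z 7 (by omega), sum_const, nsmul_eq_mul, hA6] at this
      norm_num at this
      exact this
    have s1' : ((∑ v ∈ A, (if 1 ≤ dg G T v then bd (dg G T v) else 0) : ℕ) : ℤ) =
        ∑ a ∈ A, (if 1 ≤ dg G T a then (bd (dg G T a) : ℤ) else 0) := by
      push_cast
      rfl
    have s2' : ((∑ a ∈ A, dg G T a : ℕ) : ℤ) = ∑ a ∈ A, (dg G T a : ℤ) := by
      push_cast
      rfl
    rw [← s1'] at s1
    rw [← s2'] at s2
    rw [e1]
    generalize (A.filter fun a => dg G T a = 0).card = n0 at *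
    generalize (A.filter fun a => dg G T a = 1).card = n1 at *
    generalize (A.filter fun a => dg G T a = 2).card = n2 at *
    generalize (A.filter fun a => dg G T a = 3).card = n3 at *
    generalize (A.filter fun a => dg G T a = 4).card = n4 at *
    generalize (∑ v ∈ A, (if 1 ≤ dg G T v then bd (dg G T v) else 0)) = P at *
    generalize (∑ v ∈ W, (if 1 ≤ dg G T v then bd (dg G T v) else 0)) = Q at *
    generalize (∑ a ∈ A, dg G T a) = J at *
    generalize (∑ w ∈ W, dg G T w) = ee at *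
    clear s1' s2' z hexc hks e1
    rcases (by omega : n1 = 0 ∨ n1 = 1 ∨ n1 = 2 ∨ n1 = 3 ∨ n1 = 4 ∨ n1 = 5 ∨ n1 = 6) with
      hh | hh | hh | hh | hh | hh | hh <;> subst hh <;>
      rcases (by omega : ee = 0 ∨ ee = 1) with hh | hh <;> subst hh <;> omega
  obtain ⟨σ, hσ⟩ := exists_perm I N F hNF hN1 hbad
  have hch : ∀ v, ∃ c : Fin 6, v ∈ A → c ∈ F v ∧ c ∉ im σ (N v) := by
    intro v
    by_cases hvA : v ∈ A
    swap
    · exact ⟨0, fun h1 => absurd h1 hvA⟩
    by_cases h1 : 1 ≤ dg G T v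
    · have h2 := hσ v (mem_filter.2 ⟨mem_union_left _ hvA, h1⟩)
      obtain ⟨c, hc1, hc2⟩ := not_subset.1 h2
      exact ⟨c, fun _ => ⟨hc1, hc2⟩⟩
    · refine ⟨φ v, fun _ => ⟨?_, ?_⟩⟩
      · rw [hFd]
        simp only [hvA, if_true]
        refine mem_sdiff.2 ⟨mem_univ _, fun h2 => ?_⟩
        obtain ⟨w, hw, hw'⟩ := mem_image.1 h2
        obtain ⟨h3, h4⟩ := mem_filter.1 hw
        have hvT : v ∉ T := fun h5 => (mem_sdiff.1 (hTA h5)).2 hvA
        exact hφ v (mem_sdiff.2 ⟨hAS hvA, hvT⟩) w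
          (mem_sdiff.2 ⟨hWS h3, (mem_sdiff.1 h3).2⟩) h4 hw'.symm
      · have h2 : N v = ∅ := by
          rw [← card_eq_zero, hNc]
          omega
        rw [h2]
        simp [im]
  choose c hcc using hch
  apply h.cr.1
  rw [Pool.Agent.O2.cb_fin (by norm_num)]
  refine ⟨fun v => if v ∈ T then σ (E v) else if v ∈ A then c v else φ v, ?_⟩
  -- edges from `T`
  have kT : ∀ t ∈ T, ∀ v ∈ S, v ∉ T → G.Adj t v →
      σ (E t) ≠ if v ∈ A then c v else φ v := by
    intro t ht v hv hvT htv
    have hmem : σ (E t) ∈ im σ (N v) :=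
      mem_image.2 ⟨E t, mem_image.2 ⟨t, mem_filter.2 ⟨ht, htv.symm⟩, rfl⟩, rfl⟩
    by_cases hvA : v ∈ A
    · rw [if_pos hvA]
      intro e
      exact (hcc v hvA).2 (e ▸ hmem)
    · rw [if_neg hvA]
      intro e
      have hvW : v ∈ W := mem_sdiff.2 ⟨mem_sdiff.2 ⟨hv, hvA⟩, hvT⟩
      have h1 : v ∈ I := mem_filter.2 ⟨mem_union_right _ hvW,
        card_pos.2 ⟨t, mem_filter.2 ⟨ht, htv.symm⟩⟩⟩
      apply hσ v h1
      rw [hFd]
      simp only [hvA, if_false, singleton_subset_iff]
      rw [← e]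
      exact hmem
  -- edges from `A`
  have kA : ∀ a ∈ A, ∀ v ∈ S, v ∉ T → v ∉ A → G.Adj a v → c a ≠ φ v := by
    intro a ha v hv hvT hvA hav e
    have h1 := (hcc a ha).1
    rw [hFd] at h1
    simp only [ha, if_true] at h1
    apply (mem_sdiff.1 h1).2
    rw [e]
    exact mem_image.2 ⟨v, mem_filter.2 ⟨mem_sdiff.2 ⟨mem_sdiff.2 ⟨hv, hvA⟩, hvT⟩, hav⟩, rfl⟩
  intro a ha b hb hab
  by_cases haT : a ∈ T <;> by_cases hbT : b ∈ T
  · simp only [haT, hbT, if_true]
    intro e
    exact hab.ne (hE a haT b hbT (σ.injective e))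
  · simp only [haT, hbT, if_true, if_false]
    exact kT a haT b hb hbT hab
  · simp only [haT, hbT, if_true, if_false]
    exact (kT b hbT a ha haT hab.symm).symm
  · simp only [haT, hbT, if_false]
    by_cases haA : a ∈ A <;> by_cases hbA : b ∈ A
    · exact absurd hab (hi a haA b hbA)
    · simp only [haA, hbA, if_true, if_false]
      exact kA a haA b hb hbT hbA hab
    · simp only [haA, hbA, if_true, if_false]
      exact (kA b hbA a ha haT haA hab.symm).symm
    · simp only [haA, hbA, if_false]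
      exact hφ a (mem_sdiff.2 ⟨ha, haT⟩) b (mem_sdiff.2 ⟨hb, hbT⟩) hab

end Pool.Agent.OX46.Six
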