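import Pool.Agent.Lib_helper46.OX.L5

/-!
# Five colours: the types of the low vertices and the two independent sets
-/

set_option autoImplicit false
set_option linter.unusedSectionVars false
set_option linter.unusedVariables false

open scoped Classical
open Finset
open Pool.Agent.O2 (PC Cb CrOn pr ms dg nd)
open Pool.Agent.O3 (con hit Clq)
open Pool.Agent.OW28 (NoCE)
open Pool.Agent.OW

namespace Pool.Agent.OX46

variable {V : Type} {G : SimpleGraph V} {S : Finset V}

theorem mem_lo {x : V} : x ∈ lo G S 5 ↔ x ∈ S ∧ dg G S x = 5 := mem_filter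

/-- an injective labelling -/
theorem exists_ord (S : Finset V) : ∃ o : V → ℕ, ∀ a ∈ S, ∀ b ∈ S, o a = o b → a = b := by
  refine ⟨fun v => if h : v ∈ S then (S.equivFin ⟨v, h⟩).val else 0, ?_⟩
  intro a ha b hb hab
  simp only [ha, hb, dif_pos] at hab
  have h1 := S.equivFin.injective (Fin.ext hab)
  exact congrArg Subtype.val h1

/-- a low vertex without twins which is adjacent to a pair of low twins -/
def isF (G : SimpleGraph V) (S : Finset V) (x : V) : Prop :=
  (tws G S x).card = 0 ∧ ∃ v ∈ lo G S 5, G.Adj x v ∧ (tws G S v).card = 1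

/-- the labels -/
noncomputable def oo (G : SimpleGraph V) (S : Finset V) (o : V → ℕ) (x : V) : ℕ :=
  if isF G S x then 0 else o x + 1

/-- the local minima -/
noncomputable def A1 (G : SimpleGraph V) (S : Finset V) (o : V → ℕ) : Finset V :=
  (lo G S 5).filter fun x => ∀ v ∈ lo G S 5, G.Adj x v → oo G S o x < oo G S o v

/-- the local maxima -/
noncomputable def A2 (G : SimpleGraph V) (S : Finset V) (o : V → ℕ) : Finset V :=
  (lo G S 5).filter fun x => ∀ v ∈ lo G S 5, G.Adj x v → oo G S o v < oo G S o x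

theorem A1_ind {o : V → ℕ} : ∀ a ∈ A1 G S o, ∀ b ∈ A1 G S o, ¬ G.Adj a b := by
  intro a ha b hb hab
  obtain ⟨h1, h2⟩ := mem_filter.1 ha
  obtain ⟨h3, h4⟩ := mem_filter.1 hb
  have h5 := h2 b h3 hab
  have h6 := h4 a h1 hab.symm
  omega

theorem A2_ind {o : V → ℕ} : ∀ a ∈ A2 G S o, ∀ b ∈ A2 G S o, ¬ G.Adj a b := by
  intro a ha b hb hab
  obtain ⟨h1, h2⟩ := mem_filter.1 ha
  obtain ⟨h3, h4⟩ := mem_filter.1 hb
  have h5 := h2 b h3 hab
  have h6 := h4 a h1 hab.symm
  omega

/-- the type of a low vertex -/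
noncomputable def ty (G : SimpleGraph V) (S : Finset V) (o : V → ℕ) (x : V) : ℕ :=
  if (tws G S x).card = 0 then
    if ∀ v ∈ lo G S 5, ¬ G.Adj x v then 0 else if isF G S x then 2 else 1
  else if (tws G S x).card = 1 then
    if ∀ v ∈ lo G S 5, G.Adj x v → Tw G S x v then 3 else if x ∈ A2 G S o then 4 else 5
  else if x ∈ A1 G S o ∨ x ∈ A2 G S o then 6 else 7

theorem ty_lt (o : V → ℕ) (x : V) : ty G S o x < 8 := by
  unfold ty
  split_ifs <;> omega

/-- description of the types -/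
theorem L5.cases (h : L5 G S) (o : V → ℕ) {x : V} (hx : x ∈ lo G S 5) :
    (ty G S o x = 0 ∧ (tws G S x).card = 0 ∧ ∀ v ∈ lo G S 5, ¬ G.Adj x v) ∨
    (ty G S o x = 1 ∧ (tws G S x).card = 0 ∧ ¬ isF G S x ∧
      ∃ v ∈ lo G S 5, G.Adj x v ∧ (tws G S v).card = 0) ∨
    (ty G S o x = 2 ∧ (tws G S x).card = 0 ∧ isF G S x) ∨
    (ty G S o x = 3 ∧ (tws G S x).card = 1 ∧ ∀ v ∈ lo G S 5, G.Adj x v → Tw G S x v) ∨
    (ty G S o x = 4 ∧ (tws G S x).card = 1 ∧ x ∈ A2 G S o ∧
      ∃ v ∈ lo G S 5, G.Adj x v ∧ ¬ Tw G S x v) ∨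
    (ty G S o x = 5 ∧ (tws G S x).card = 1 ∧ x ∉ A2 G S o ∧
      ∃ v ∈ lo G S 5, G.Adj x v ∧ ¬ Tw G S x v) ∨
    (ty G S o x = 6 ∧ (tws G S x).card = 2 ∧ (x ∈ A1 G S o ∨ x ∈ A2 G S o)) ∨
    (ty G S o x = 7 ∧ (tws G S x).card = 2 ∧ ¬ (x ∈ A1 G S o ∨ x ∈ A2 G S o)) := by
  obtain ⟨hxS, hlx⟩ := mem_lo.1 hx
  have h4 := h.c4' x hxS hlx
  by_cases h0 : (tws G S x).card = 0
  · by_cases h1 : ∀ v ∈ lo G S 5, ¬ G.Adj x v
    · have e : ty G S o x = 0 := by
        unfold ty
        rw [if_pos h0, if_pos h1]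
      exact Or.inl ⟨e, h0, h1⟩
    · have h1' := h1
      push Not at h1
      obtain ⟨v, hv, hxv⟩ := h1
      obtain ⟨hvS, hlv⟩ := mem_lo.1 hv
      by_cases h2 : isF G S x
      · have e : ty G S o x = 2 := by
          unfold ty
          rw [if_pos h0, if_neg h1', if_pos h2]
        exact Or.inr (Or.inr (Or.inl ⟨e, h0, h2⟩))
      · have e : ty G S o x = 1 := by
          unfold ty
          rw [if_pos h0, if_neg h1', if_neg h2]
        refine Or.inr (Or.inl ⟨e, h0, h2, v, hv, hxv, ?_⟩)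
        have h5 := h.c4' v hvS hlv
        have h6 : (tws G S v).card ≠ 1 := fun h7 => h2 ⟨h0, v, hv, hxv, h7⟩
        have h7 : (tws G S v).card ≠ 2 := fun h8 => by
          have := h.three hvS hlv h8 hxS hxv.symm (fun h9 => by
            have := tw_pos hvS h9.symm
            omega)
          omega
        omega
  · by_cases h1 : (tws G S x).card = 1
    · by_cases h2 : ∀ v ∈ lo G S 5, G.Adj x v → Tw G S x v
      · have e : ty G S o x = 3 := by
          unfold ty
          rw [if_neg h0, if_pos h1, if_pos h2]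
        exact Or.inr (Or.inr (Or.inr (Or.inl ⟨e, h1, h2⟩)))
      · have h2' := h2
        push Not at h2'
        by_cases h3 : x ∈ A2 G S o
        · have e : ty G S o x = 4 := by
            unfold ty
            rw [if_neg h0, if_pos h1, if_neg h2, if_pos h3]
          exact Or.inr (Or.inr (Or.inr (Or.inr (Or.inl ⟨e, h1, h3, h2'⟩))))
        · have e : ty G S o x = 5 := by
            unfold ty
            rw [if_neg h0, if_pos h1, if_neg h2, if_neg h3]
          exact Or.inr (Or.inr (Or.inr (Or.inr (Or.inr (Or.inl ⟨e, h1, h3, h2'⟩)))))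
    · have h2 : (tws G S x).card = 2 := by omega
      by_cases h3 : x ∈ A1 G S o ∨ x ∈ A2 G S o
      · have e : ty G S o x = 6 := by
          unfold ty
          rw [if_neg h0, if_neg h1, if_pos h3]
        exact Or.inr (Or.inr (Or.inr (Or.inr (Or.inr (Or.inr (Or.inl ⟨e, h2, h3⟩))))))
      · have e : ty G S o x = 7 := by
          unfold ty
          rw [if_neg h0, if_neg h1, if_neg h3]
        exact Or.inr (Or.inr (Or.inr (Or.inr (Or.inr (Or.inr (Or.inr ⟨e, h2, h3⟩))))))

end Pool.Agent.OX46
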