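import Pool.Agent.Lib_helper46.OX.L6

/-!
# Six colours: clusters, the types of the low vertices and the independent sets
-/

set_option autoImplicit false
set_option linter.unusedSectionVars false
set_option linter.unusedVariables false

open scoped Classical
open Finset
open Pool.Agent.O2 (PC Cb CrOn pr ms dg nd)
open Pool.Agent.O3 (con hit Clq)
open Pool.Agent.OW28 (NoCE)
open Pool.Agent.OW

namespace Pool.Agent.OX46.Six

variable {V : Type} {G : SimpleGraph V} {S : Finset V}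

theorem mem_lo {x : V} : x ∈ lo G S 6 ↔ x ∈ S ∧ dg G S x = 6 := mem_filter

/-- an injective labelling -/
theorem exists_ord (S : Finset V) : ∃ o : V → ℤ, ∀ a ∈ S, ∀ b ∈ S, o a = o b → a = b := by
  refine ⟨fun v => if h : v ∈ S then ((S.equivFin ⟨v, h⟩).val : ℤ) else 0, ?_⟩
  intro a ha b hb hab
  simp only [ha, hb, dif_pos] at hab
  have h0 : (S.equivFin ⟨a, ha⟩).val = (S.equivFin ⟨b, hb⟩).val := by exact_mod_cast hab
  have h1 := S.equivFin.injective (Fin.ext h0)
  exact congrArg Subtype.val h1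

/-! ### clusters -/

theorem mem_clu {x y : V} : y ∈ clu G S x ↔ y ∈ S ∧ (y = x ∨ Tw G S x y) := mem_filter

theorem self_clu {x : V} (hx : x ∈ S) : x ∈ clu G S x := mem_clu.2 ⟨hx, Or.inl rfl⟩

theorem tws_card_tw {x y : V} (hx : x ∈ S) (hy : y ∈ S) (h : Tw G S x y) :
    (tws G S y).card = (tws G S x).card := by
  have h1 := clu_eq hx hy (Or.inr h)
  have h2 := clu_card (G := G) hx
  have h3 := clu_card (G := G) hy
  rw [h1] at h2
  omega

/-- induction over the clusters of a set which is a union of clusters -/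
theorem clu_ind (P : Finset V → Prop) (h0 : P ∅)
    (hs : ∀ (M : Finset V) (x : V), x ∈ S → Disjoint M (clu G S x) → P M →
      P (M ∪ clu G S x)) :
    ∀ (n : ℕ) (N : Finset V), N.card = n → N ⊆ S → (∀ x ∈ N, clu G S x ⊆ N) → P N := by
  intro n
  induction n using Nat.strong_induction_on with
  | _ n ih =>
    intro N hn hNS hN
    rcases N.eq_empty_or_nonempty with rfl | ⟨x, hx⟩
    · exact h0
    · have hxS := hNS hx
      have h1 := hN x hx
      have h2 : N \ clu G S x ⊆ N := sdiff_subset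
      have h3 : (N \ clu G S x).card < n := by
        rw [← hn]
        apply card_lt_card
        refine ⟨h2, fun h4 => ?_⟩
        exact (mem_sdiff.1 (h4 hx)).2 (self_clu hxS)
      have h4 := ih _ h3 (N \ clu G S x) rfl (h2.trans hNS) (by
        intro y hy z hz
        obtain ⟨hy1, hy2⟩ := mem_sdiff.1 hy
        refine mem_sdiff.2 ⟨hN y hy1 hz, fun hz2 => hy2 ?_⟩
        obtain ⟨hzS, hz1⟩ := mem_clu.1 hz
        obtain ⟨-, hz3⟩ := mem_clu.1 hz2
        have e1 := clu_eq (hNS hy1) hzS hz1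
        have e2 := clu_eq hxS hzS hz3
        rw [e2, ← e1]
        exact self_clu (hNS hy1))
      have h5 := hs (N \ clu G S x) x hxS sdiff_disjoint h4
      rwa [sdiff_union_of_subset h1] at h5

/-- two functions with equal sums over the clusters have equal sums -/
theorem clu_sum {f g : V → ℤ} {N : Finset V} (hNS : N ⊆ S) (hN : ∀ x ∈ N, clu G S x ⊆ N)
    (h : ∀ x ∈ N, ∑ y ∈ clu G S x, f y = ∑ y ∈ clu G S x, g y) :
    ∑ y ∈ N, f y = ∑ y ∈ N, g y := by
  have key := clu_ind (G := G) (S := S) (fun M => M ⊆ N → ∑ y ∈ M, f y = ∑ y ∈ M, g y)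
    (fun _ => rfl) (fun M x hxS hd hM hMN => by
      rw [sum_union hd, sum_union hd, hM (subset_union_left.trans hMN),
        h x (hMN (mem_union_right _ (self_clu hxS)))]) _ N rfl hNS hN
  exact key (Subset.refl _)

/-- a union of clusters of size `c` -/
theorem clu_dvd {c : ℕ} {N : Finset V} (hNS : N ⊆ S) (hN : ∀ x ∈ N, clu G S x ⊆ N)
    (h : ∀ x ∈ N, (tws G S x).card + 1 = c) : c ∣ N.card := by
  have key := clu_ind (G := G) (S := S) (fun M => M ⊆ N → c ∣ M.card)
    (fun _ => by rw [card_empty]; exact dvd_zero c) (fun M x hxS hd hM hMN => by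
      rw [card_union_of_disjoint hd, clu_card hxS, h x (hMN (mem_union_right _ (self_clu hxS)))]
      exact dvd_add (hM (subset_union_left.trans hMN)) (dvd_refl c)) _ N rfl hNS hN
  exact key (Subset.refl _)

/-! ### the independent sets -/

/-- a low vertex without twins which is adjacent to a low vertex with twins -/
def isF (G : SimpleGraph V) (S : Finset V) (x : V) : Prop :=
  (tws G S x).card = 0 ∧ ∃ v ∈ lo G S 6, G.Adj x v ∧ 1 ≤ (tws G S v).card

/-- the local maxima -/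
noncomputable def AA (G : SimpleGraph V) (S : Finset V) (o : V → ℤ) : Finset V :=
  (lo G S 6).filter fun x => ¬ isF G S x ∧ ∀ v ∈ lo G S 6, G.Adj x v → isF G S v ∨ o v < o x

theorem mem_AA {o : V → ℤ} {x : V} : x ∈ AA G S o ↔ x ∈ lo G S 6 ∧ ¬ isF G S x ∧
    ∀ v ∈ lo G S 6, G.Adj x v → isF G S v ∨ o v < o x := mem_filter

theorem AA_ind {o : V → ℤ} : ∀ a ∈ AA G S o, ∀ b ∈ AA G S o, ¬ G.Adj a b := by
  intro a ha b hb hab
  obtain ⟨h1, h1', h2⟩ := mem_AA.1 ha
  obtain ⟨h3, h3', h4⟩ := mem_AA.1 hb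
  rcases h2 b h3 hab with h5 | h5
  · exact h3' h5
  · rcases h4 a h1 hab.symm with h6 | h6
    · exact h1' h6
    · omega

/-- the number of sets that contain `x` -/
noncomputable def ia (G : SimpleGraph V) (S : Finset V) (o : V → ℤ) (x : V) : ℤ :=
  (if x ∈ AA G S o then 1 else 0) + (if x ∈ AA G S (fun v => - o v) then 1 else 0)

theorem L6.isF_of (h : L6 G S) {x v : V} (hx : x ∈ lo G S 6) (htx : 1 ≤ (tws G S x).card)
    (hv : v ∈ lo G S 6) (hxv : G.Adj x v) (hnt : ¬ Tw G S x v) : isF G S v := by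
  obtain ⟨hxS, hlx⟩ := mem_lo.1 hx
  obtain ⟨hvS, hlv⟩ := mem_lo.1 hv
  exact ⟨(h.df hxS hlx htx hvS hlv hxv hnt).2.1, x, hx, hxv.symm, htx⟩

theorem clu_lo {x y : V} (hx : x ∈ lo G S 6) (hy : y ∈ clu G S x) : y ∈ lo G S 6 := by
  obtain ⟨hxS, hlx⟩ := mem_lo.1 hx
  obtain ⟨hyS, rfl | h⟩ := mem_clu.1 hy
  · exact hx
  · exact mem_lo.2 ⟨hyS, by rw [tws_low hxS hyS h, hlx]⟩

theorem clu_tws {x y : V} (hx : x ∈ S) (hy : y ∈ clu G S x) :
    (tws G S y).card = (tws G S x).card := by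
  obtain ⟨hyS, rfl | h⟩ := mem_clu.1 hy
  · rfl
  · exact tws_card_tw hx hyS h

theorem clu_adj {x a b : V} (hx : x ∈ S) (ha : a ∈ clu G S x) (hb : b ∈ clu G S x)
    (hab : a ≠ b) : Tw G S a b := by
  obtain ⟨haS, ha'⟩ := mem_clu.1 ha
  obtain ⟨hbS, hb'⟩ := mem_clu.1 hb
  have e := clu_eq hx haS ha'
  rw [e] at hb
  rcases (mem_clu.1 hb).2 with h | h
  · exact absurd h.symm hab
  · exact h

/-- a cluster with at least two vertices meets each of the sets in one vertex -/
theorem L6.clu_one (h : L6 G S) {o : V → ℤ} (ho : ∀ a ∈ S, ∀ b ∈ S, o a = o b → a = b) {x : V}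
    (hx : x ∈ lo G S 6) (htx : 1 ≤ (tws G S x).card) :
    ∑ y ∈ clu G S x, (if y ∈ AA G S o then (1 : ℤ) else 0) = 1 := by
  obtain ⟨hxS, hlx⟩ := mem_lo.1 hx
  obtain ⟨m, hm, hmax⟩ := exists_max_image (clu G S x) o ⟨x, self_clu hxS⟩
  have hml := clu_lo hx hm
  obtain ⟨hmS, hlm⟩ := mem_lo.1 hml
  have hmt := clu_tws hxS hm
  have hmA : m ∈ AA G S o := by
    refine mem_AA.2 ⟨hml, fun h1 => ?_, fun v hv hmv => ?_⟩
    · have := h1.1
      omega
    · by_cases hnt : Tw G S m v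
      · right
        have h1 : v ∈ clu G S x := by
          rw [clu_eq hxS hmS (mem_clu.1 hm).2]
          exact mem_clu.2 ⟨(mem_lo.1 hv).1, Or.inr hnt⟩
        rcases lt_or_eq_of_le (hmax v h1) with h2 | h2
        · exact h2
        · exact absurd (ho v (mem_lo.1 hv).1 m hmS h2) hmv.ne'
      · exact Or.inl (h.isF_of hml (by omega) hv hmv hnt)
  rw [sum_eq_single m, if_pos hmA]
  · intro y hy hym
    rw [if_neg]
    intro hyA
    have h1 := clu_adj hxS hm hy (Ne.symm hym)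
    rcases (mem_AA.1 hyA).2.2 m hml h1.1.symm with h2 | h2
    · have := h2.1
      omega
    · have := hmax y hy
      omega
  · intro h1
    exact absurd hm h1

/-! ### the types -/

/-- the type of a low vertex -/
noncomputable def ty (G : SimpleGraph V) (S : Finset V) (x : V) : ℕ :=
  if (tws G S x).card = 0 then
    if ∀ v ∈ lo G S 6, ¬ G.Adj x v then 0 else if isF G S x then 2 else 1
  else if (tws G S x).card = 1 then
    if ∀ v ∈ lo G S 6, G.Adj x v → Tw G S x v then 3 else 4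
  else if (tws G S x).card = 2 then
    if ∀ v ∈ lo G S 6, G.Adj x v → Tw G S x v then 5 else 6
  else 7

theorem ty_lt (x : V) : ty G S x < 8 := by
  unfold ty
  split_ifs <;> omega

/-- description of the types -/
theorem L6.cases (h : L6 G S) {x : V} (hx : x ∈ lo G S 6) :
    (ty G S x = 0 ∧ (tws G S x).card = 0 ∧ ∀ v ∈ lo G S 6, ¬ G.Adj x v) ∨
    (ty G S x = 1 ∧ (tws G S x).card = 0 ∧ ¬ isF G S x ∧
      ∃ v ∈ lo G S 6, G.Adj x v ∧ (tws G S v).card = 0) ∨
    (ty G S x = 2 ∧ (tws G S x).card = 0 ∧ isF G S x) ∨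
    (ty G S x = 3 ∧ (tws G S x).card = 1 ∧ ∀ v ∈ lo G S 6, G.Adj x v → Tw G S x v) ∨
    (ty G S x = 4 ∧ (tws G S x).card = 1 ∧ ∃ v ∈ lo G S 6, G.Adj x v ∧ ¬ Tw G S x v) ∨
    (ty G S x = 5 ∧ (tws G S x).card = 2 ∧ ∀ v ∈ lo G S 6, G.Adj x v → Tw G S x v) ∨
    (ty G S x = 6 ∧ (tws G S x).card = 2 ∧ ∃ v ∈ lo G S 6, G.Adj x v ∧ ¬ Tw G S x v) ∨
    (ty G S x = 7 ∧ (tws G S x).card = 3) := by
  obtain ⟨hxS, hlx⟩ := mem_lo.1 hx
  have h4 := h.c4' x hxS hlx
  by_cases h0 : (tws G S x).card = 0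
  · by_cases h1 : ∀ v ∈ lo G S 6, ¬ G.Adj x v
    · have e : ty G S x = 0 := by
        unfold ty
        rw [if_pos h0, if_pos h1]
      exact Or.inl ⟨e, h0, h1⟩
    · have h1' := h1
      push Not at h1
      obtain ⟨v, hv, hxv⟩ := h1
      obtain ⟨hvS, hlv⟩ := mem_lo.1 hv
      by_cases h2 : isF G S x
      · have e : ty G S x = 2 := by
          unfold ty
          rw [if_pos h0, if_neg h1', if_pos h2]
        exact Or.inr (Or.inr (Or.inl ⟨e, h0, h2⟩))
      · have e : ty G S x = 1 := by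
          unfold ty
          rw [if_pos h0, if_neg h1', if_neg h2]
        refine Or.inr (Or.inl ⟨e, h0, h2, v, hv, hxv, ?_⟩)
        by_contra h5
        exact h2 ⟨h0, v, hv, hxv, by omega⟩
  · by_cases h1 : (tws G S x).card = 1
    · by_cases h2 : ∀ v ∈ lo G S 6, G.Adj x v → Tw G S x v
      · have e : ty G S x = 3 := by
          unfold ty
          rw [if_neg h0, if_pos h1, if_pos h2]
        exact Or.inr (Or.inr (Or.inr (Or.inl ⟨e, h1, h2⟩)))
      · have e : ty G S x = 4 := by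
          unfold ty
          rw [if_neg h0, if_pos h1, if_neg h2]
        push Not at h2
        exact Or.inr (Or.inr (Or.inr (Or.inr (Or.inl ⟨e, h1, h2⟩))))
    · by_cases h3 : (tws G S x).card = 2
      · by_cases h2 : ∀ v ∈ lo G S 6, G.Adj x v → Tw G S x v
        · have e : ty G S x = 5 := by
            unfold ty
            rw [if_neg h0, if_neg h1, if_pos h3, if_pos h2]
          exact Or.inr (Or.inr (Or.inr (Or.inr (Or.inr (Or.inl ⟨e, h3, h2⟩)))))
        · have e : ty G S x = 6 := by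
            unfold ty
            rw [if_neg h0, if_neg h1, if_pos h3, if_neg h2]
          push Not at h2
          exact Or.inr (Or.inr (Or.inr (Or.inr (Or.inr (Or.inr (Or.inl ⟨e, h3, h2⟩))))))
      · have e : ty G S x = 7 := by
          unfold ty
          rw [if_neg h0, if_neg h1, if_neg h3]
        exact Or.inr (Or.inr (Or.inr (Or.inr (Or.inr (Or.inr (Or.inr ⟨e, by omega⟩))))))

/-- twins have the same type -/
theorem ty_tw {x y : V} (hx : x ∈ lo G S 6) (hy : y ∈ clu G S x) : ty G S y = ty G S x := by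
  have hyl := clu_lo hx hy
  obtain ⟨hxS, hlx⟩ := mem_lo.1 hx
  obtain ⟨hyS, hly⟩ := mem_lo.1 hyl
  rcases (mem_clu.1 hy).2 with rfl | h
  · rfl
  have h1 := tws_card_tw hxS hyS h
  have h0 := tw_pos hyS h
  have key : ∀ {x y : V}, x ∈ lo G S 6 → y ∈ lo G S 6 → Tw G S x y →
      (∀ v ∈ lo G S 6, G.Adj x v → Tw G S x v) → ∀ v ∈ lo G S 6, G.Adj y v → Tw G S y v := by
    intro x y hx hy h h2 v hv hyv
    by_cases hvx : v = x
    · rw [hvx]
      exact h.symm
    · have h3 : G.Adj x v := (h.2 v (mem_lo.1 hv).1 hvx hyv.ne').2 hyv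
      exact tw_trans (mem_lo.1 hy).1 (mem_lo.1 hx).1 (mem_lo.1 hv).1 hyv.ne h.symm (h2 v hv h3)
  have h2 : (∀ v ∈ lo G S 6, G.Adj x v → Tw G S x v) ↔
      (∀ v ∈ lo G S 6, G.Adj y v → Tw G S y v) :=
    ⟨key hx hyl h, key hyl hx h.symm⟩
  have hne : ¬ (tws G S x).card = 0 := by omega
  unfold ty
  rw [h1, if_neg hne, if_neg hne]
  by_cases h3 : ∀ v ∈ lo G S 6, G.Adj x v → Tw G S x v
  · have h4 := h2.1 h3
    simp only [if_pos h3, if_pos h4]
  · have h4 := fun e => h3 (h2.2 e)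
    simp only [if_neg h3, if_neg h4]

/-- six times the average number of sets that contain a vertex, from the type -/
def iq : ℕ → ℤ
  | 0 => 12
  | 1 => 6
  | 2 => 0
  | 3 => 6
  | 4 => 6
  | 5 => 4
  | 6 => 4
  | _ => 3

theorem L6.ia_clu (h : L6 G S) {o : V → ℤ} (ho : ∀ a ∈ S, ∀ b ∈ S, o a = o b → a = b) {x : V}
    (hx : x ∈ lo G S 6) :
    ∑ y ∈ clu G S x, 6 * ia G S o y = ∑ y ∈ clu G S x, iq (ty G S y) := by
  obtain ⟨hxS, hlx⟩ := mem_lo.1 hx
  have e1 : ∑ y ∈ clu G S x, iq (ty G S y) = ((tws G S x).card + 1) * iq (ty G S x) := by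
    rw [sum_congr rfl (g := fun _ => iq (ty G S x)) (fun y hy => by rw [ty_tw hx hy]), sum_const,
      nsmul_eq_mul, clu_card hxS]
    push_cast
    ring
  rw [e1]
  have e2 : 1 ≤ (tws G S x).card → ∑ y ∈ clu G S x, 6 * ia G S o y = 12 := by
    intro h1
    have h2 := h.clu_one ho hx h1
    have h3 := h.clu_one (o := fun v => - o v)
      (fun a ha b hb hab => ho a ha b hb (by simpa using hab)) hx h1
    rw [← mul_sum]
    unfold ia
    rw [sum_add_distrib, h2, h3]
    norm_num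
  have e3 : (tws G S x).card = 0 → ∑ y ∈ clu G S x, 6 * ia G S o y = 6 * ia G S o x := by
    intro h1
    have h2 : clu G S x = {x} := by
      ext y
      rw [mem_clu, mem_singleton]
      constructor
      · rintro ⟨h3, h4 | h4⟩
        · exact h4
        · have := tw_pos h3 h4
          omega
      · rintro rfl
        exact ⟨hxS, Or.inl rfl⟩
    rw [h2, sum_singleton]
  rcases h.cases hx with ⟨e, h1, h2⟩ | ⟨e, h1, h2, v, hv, hxv, htv⟩ | ⟨e, h1, h2⟩ |
    ⟨e, h1, h2⟩ | ⟨e, h1, h2⟩ | ⟨e, h1, h2⟩ | ⟨e, h1, h2⟩ | ⟨e, h1⟩ <;> rw [e, h1]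
  · have h5 : ¬ isF G S x := by
      rintro ⟨-, v, hv, hxv, -⟩
      exact h2 v hv hxv
    have h3 : ∀ o' : V → ℤ, x ∈ AA G S o' := fun o' =>
      mem_AA.2 ⟨hx, h5, fun w hw hxw => absurd hxw (h2 w hw)⟩
    rw [e3 h1]
    unfold ia
    rw [if_pos (h3 _), if_pos (h3 _)]
    rfl
  · obtain ⟨hvS, hlv⟩ := mem_lo.1 hv
    have h3 := (h.edge hxS hlx h1 hvS hlv htv hxv).2
    have h4 := (h.edge hvS hlv htv hxS hlx h1 hxv.symm).2
    have hFv : ¬ isF G S v := by
      rintro ⟨-, w, hw, hvw, htw⟩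
      by_cases hwx : w = x
      · rw [hwx, h1] at htw
        omega
      · exact h4 w (mem_lo.1 hw).1 hvw hwx (mem_lo.1 hw).2
    have h5 : ∀ o' : V → ℤ, x ∈ AA G S o' ↔ o' v < o' x := by
      intro o'
      rw [mem_AA]
      constructor
      · rintro ⟨-, -, h6⟩
        exact (h6 v hv hxv).resolve_left hFv
      · intro h6
        refine ⟨hx, h2, fun w hw hxw => Or.inr ?_⟩
        have : w = v := by
          by_contra hwv
          exact h3 w (mem_lo.1 hw).1 hxw hwv (mem_lo.1 hw).2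
        rw [this]
        exact h6
    have h6 : o v ≠ o x := fun e => hxv.ne' (ho v hvS x hxS e)
    rw [e3 h1]
    unfold ia
    rcases lt_or_gt_of_ne h6 with h7 | h7
    · rw [if_pos ((h5 _).2 h7), if_neg (fun h8 => by
        have h9 : - o v < - o x := (h5 (fun v => - o v)).1 h8
        omega)]
      rfl
    · rw [if_neg (fun h8 => by
        have := (h5 _).1 h8
        omega), if_pos ((h5 _).2 (show - o v < - o x by omega))]
      rfl
  · rw [e3 h1]
    have h3 : ∀ o' : V → ℤ, x ∉ AA G S o' := fun o' h4 => (mem_AA.1 h4).2.1 h2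
    unfold ia
    rw [if_neg (h3 _), if_neg (h3 _)]
    rfl
  · rw [e2 (by omega)]
    rfl
  · rw [e2 (by omega)]
    rfl
  · rw [e2 (by omega)]
    rfl
  · rw [e2 (by omega)]
    rfl
  · rw [e2 (by omega)]
    rfl

/-- the average over a union of clusters -/
theorem L6.avg (h : L6 G S) {o : V → ℤ} (ho : ∀ a ∈ S, ∀ b ∈ S, o a = o b → a = b)
    {N : Finset V} (hNl : N ⊆ lo G S 6) (hN : ∀ x ∈ N, clu G S x ⊆ N) :
    6 * ∑ x ∈ N, ia G S o x = ∑ x ∈ N, iq (ty G S x) := by
  rw [mul_sum]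
  exact clu_sum (fun x hx => (mem_lo.1 (hNl hx)).1) hN fun x hx => h.ia_clu ho (hNl hx)

/-- the sets and their common count -/
theorem ia_cards {o : V → ℤ} :
    ∑ x ∈ lo G S 6, ia G S o x = (AA G S o).card + (AA G S (fun v => - o v)).card := by
  unfold ia
  rw [sum_add_distrib]
  have key : ∀ A : Finset V, A ⊆ lo G S 6 →
      ∑ x ∈ lo G S 6, (if x ∈ A then (1 : ℤ) else 0) = A.card := by
    intro A hA
    rw [← sum_filter]
    have h2 : (lo G S 6).filter (fun x => x ∈ A) = A := by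
      ext x
      rw [mem_filter]
      exact ⟨fun h3 => h3.2, fun h3 => ⟨hA h3, h3⟩⟩
    rw [h2]
    simp
  rw [key (AA G S o) (filter_subset _ _), key (AA G S fun v => - o v) (filter_subset _ _)]

/-- the same at a vertex -/
theorem ia_nbs {o : V → ℤ} (u : V) :
    ∑ x ∈ (lo G S 6).filter (fun x => G.Adj u x), ia G S o x =
      (dg G (AA G S o) u : ℤ) + dg G (AA G S (fun v => - o v)) u := by
  unfold ia
  rw [sum_add_distrib]
  have key : ∀ A : Finset V, A ⊆ lo G S 6 →
      ∑ x ∈ (lo G S 6).filter (fun x => G.Adj u x), (if x ∈ A then (1 : ℤ) else 0) =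
        dg G A u := by
    intro A hA
    rw [← sum_filter]
    have h2 : ((lo G S 6).filter (fun x => G.Adj u x)).filter (fun x => x ∈ A) =
        A.filter fun x => G.Adj u x := by
      ext x
      simp only [mem_filter]
      exact ⟨fun h3 => ⟨h3.2, h3.1.2⟩, fun h3 => ⟨⟨hA h3.1, h3.2⟩, h3.1⟩⟩
    rw [h2]
    simp
    rfl
  rw [key (AA G S o) (filter_subset _ _), key (AA G S fun v => - o v) (filter_subset _ _)]

end Pool.Agent.OX46.Six
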